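import Mathlib
import Pool.Agent.Helper19.V3.Plane

set_option autoImplicit false

/-!
# Affine planes of order `q + 1` in a Steiner system with blocks of `q + 1` points
-/

namespace Pool.Agent.Helper19.A3

open Finset Pool.Agent.V11100.VB Pool.Agent.Helper19.VS

variable {V : Type} [DecidableEq V] {B : Finset (Finset V)} {q : ℕ}

/-- a subsystem which is an affine plane -/
structure APla (B : Finset (Finset V)) (q : ℕ) (S : Finset V) : Prop where
  card : S.card = (q + 1) * (q + 1)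
  cl : ∀ x ∈ S, ∀ y ∈ S, x ≠ y → bl B x y ⊆ S

/-- any two blocks through `p` are contained in an affine plane -/
def Apt (B : Finset (Finset V)) (q : ℕ) (p : V) : Prop :=
  ∀ l ∈ B, ∀ m ∈ B, l ≠ m → p ∈ l → p ∈ m → ∃ S, APla B q S ∧ l ⊆ S ∧ m ⊆ S

section
variable (H : LS B q)
include H

theorem APla.sub {S : Finset V} (P : APla B q S) {x y : V} (hx : x ∈ S) (hy : y ∈ S) (h : x ≠ y)
    {g : Finset V} (hg : g ∈ B) (h1 : x ∈ g) (h2 : y ∈ g) : g ⊆ S := by
  rw [← H.bl_eq h hg h1 h2]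
  exact P.cl x hx y hy h

theorem APla.pl_sub {S : Finset V} (P : APla B q S) {x : V} {l : Finset V} (hlS : l ⊆ S)
    (hx : x ∈ S) (hxl : x ∉ l) : pl B x l ⊆ S := by
  intro y hy
  unfold pl at hy
  rw [mem_biUnion] at hy
  obtain ⟨z, hz, hyz⟩ := hy
  exact P.cl x hx z (hlS hz) (fun e => hxl (e ▸ hz)) hyz

theorem APla.card_sdiff {S : Finset V} (P : APla B q S) {x : V} {l : Finset V} (hl : l ∈ B)
    (hlS : l ⊆ S) (hx : x ∈ S) (hxl : x ∉ l) : (S \ pl B x l).card = q := by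
  rw [card_sdiff_of_subset (P.pl_sub H hlS hx hxl), P.card, H.card_pl hl hxl]
  have : (q + 1) * (q + 1) = (q + 1) * q + 1 + q := by ring
  omega

theorem APla.par_erase {S : Finset V} (P : APla B q S) {x : V} {l : Finset V} (hl : l ∈ B)
    (hlS : l ⊆ S) (hx : x ∈ S) (hxl : x ∉ l) {m : Finset V} (hm : m ∈ B) (hmS : m ⊆ S)
    (hxm : x ∈ m) (hd : Disjoint m l) : m.erase x = S \ pl B x l := by
  apply eq_of_subset_of_card_le
  · intro w hw
    rw [mem_erase] at hw
    rw [mem_sdiff]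
    refine ⟨hmS hw.2, fun hc => ?_⟩
    obtain ⟨y, hy, hyw⟩ := (H.mem_pl hxl hw.1).1 hc
    rw [H.bl_eq hw.1.symm hm hxm hw.2] at hyw
    exact (disjoint_left.1 hd) hyw hy
  · rw [P.card_sdiff H hl hlS hx hxl, card_erase_of_mem hxm, H.size m hm]
    omega

/-- the parallel through a point -/
theorem APla.par {S : Finset V} (P : APla B q S) {x : V} {l : Finset V} (hl : l ∈ B)
    (hlS : l ⊆ S) (hx : x ∈ S) (hxl : x ∉ l) :
    ∃ m ∈ B, m ⊆ S ∧ x ∈ m ∧ Disjoint m l := by
  have hc := P.card_sdiff H hl hlS hx hxl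
  have hne : (S \ pl B x l).Nonempty := by
    rw [← card_pos, hc]
    have := H.hq
    omega
  obtain ⟨z, hz⟩ := hne
  rw [mem_sdiff] at hz
  have hxz : x ≠ z := by
    rintro rfl
    exact hz.2 (H.p_mem hl hxl)
  refine ⟨bl B x z, H.bB hxz, P.cl x hx z hz.1 hxz, H.b1 hxz, ?_⟩
  rw [disjoint_left]
  intro y hy hyl
  exact hz.2 ((H.mem_pl hxl hxz.symm).2 ⟨y, hyl, hy⟩)

theorem APla.par_un {S : Finset V} (P : APla B q S) {x : V} {l : Finset V} (hl : l ∈ B)
    (hlS : l ⊆ S) (hxl : x ∉ l) {m m' : Finset V} (hm : m ∈ B) (hmS : m ⊆ S)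
    (hxm : x ∈ m) (hd : Disjoint m l) (hm' : m' ∈ B) (hmS' : m' ⊆ S)
    (hxm' : x ∈ m') (hd' : Disjoint m' l) : m = m' := by
  have hx := hmS hxm
  rw [← insert_erase hxm, ← insert_erase hxm', P.par_erase H hl hlS hx hxl hm hmS hxm hd,
    P.par_erase H hl hlS hx hxl hm' hmS' hxm' hd']

/-- a block that meets one of two parallels meets the other -/
theorem APla.meet_par {S : Finset V} (P : APla B q S) {g m m' : Finset V} (hg : g ∈ B)
    (hgS : g ⊆ S) (hm : m ∈ B) (hmS : m ⊆ S) (hm' : m' ∈ B) (hmS' : m' ⊆ S)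
    (hd : Disjoint m m') {y : V} (hyg : y ∈ g) (hym : y ∈ m) (hne : g ≠ m) :
    ∃ z ∈ g, z ∈ m' := by
  by_contra hc
  push Not at hc
  have hd' : Disjoint g m' := disjoint_left.2 hc
  exact hne (P.par_un H hm' hmS' ((disjoint_left.1 hd) hym) hg hgS hyg hd' hm hmS hym hd)

/-- two parallels to the same block through the same point are equal, in another form -/
theorem APla.tr {S : Finset V} (P : APla B q S) {g m l : Finset V} (hg : g ∈ B)
    (hgS : g ⊆ S) (hm : m ∈ B) (hmS : m ⊆ S) (hl : l ∈ B) (hlS : l ⊆ S)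
    (h1 : Disjoint g l) (h2 : Disjoint m l) : g = m ∨ Disjoint g m := by
  by_cases hd : Disjoint g m
  · exact Or.inr hd
  · left
    rw [not_disjoint_iff] at hd
    obtain ⟨y, hy1, hy2⟩ := hd
    exact P.par_un H hl hlS ((disjoint_left.1 h1) hy1) hg hgS hy1 h1 hm hmS hy2 h2

/-- affine planes with two common intersecting blocks are equal -/
theorem APla.uniq {S S' : Finset V} (P : APla B q S) (P' : APla B q S') {x : V} {l m : Finset V}
    (hl : l ∈ B) (hm : m ∈ B) (hlm : l ≠ m) (hxl : x ∈ l) (hxm : x ∈ m) (hlS : l ⊆ S)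
    (hmS : m ⊆ S) (hlS' : l ⊆ S') (hmS' : m ⊆ S') : S = S' := by
  apply eq_of_subset_of_card_le
  · intro y hy
    by_cases hyl : y ∈ l
    · exact hlS' hyl
    by_cases hym : y ∈ m
    · exact hmS' hym
    obtain ⟨a, ha, hax⟩ := H.two_pts hl x
    obtain ⟨a', ha', hax', haa'⟩ := H.three_pts hl x a
    have hya : y ≠ a := fun e => hyl (e ▸ ha)
    have hya' : y ≠ a' := fun e => hyl (e ▸ ha')
    have hne : bl B y a ≠ bl B y a' := by
      intro e
      have : l = bl B y a := H.un haa' hl (H.bB hya) ha' ha (e ▸ H.b2 hya') (H.b2 hya)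
      exact hyl (this ▸ H.b1 hya)
    have key : ∀ a, a ∈ l → a ≠ x → y ≠ a → ∀ c, c ∈ bl B y a → c ∈ m → y ∈ S' := by
      intro a ha hax hya c hc hcm
      have hca : c ≠ a := by
        rintro rfl
        exact hax (H.pt hl hm hlm ha hcm hxl hxm)
      exact (P'.sub H (hmS' hcm) (hlS' ha) hca (H.bB hya) hc (H.b2 hya)) (H.b1 hya)
    by_cases hd : Disjoint (bl B y a) m
    · have hd' : ¬ Disjoint (bl B y a') m := by
        intro hd'
        exact hne (P.par_un H hm hmS hym (H.bB hya) (P.cl y hy a (hlS ha) hya) (H.b1 hya) hd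
          (H.bB hya') (P.cl y hy a' (hlS ha') hya') (H.b1 hya') hd')
      rw [not_disjoint_iff] at hd'
      obtain ⟨c, hc, hcm⟩ := hd'
      exact key a' ha' hax' hya' c hc hcm
    · rw [not_disjoint_iff] at hd
      obtain ⟨c, hc, hcm⟩ := hd
      exact key a ha hax hya c hc hcm
  · rw [P.card, P'.card]

/-- the number of blocks through a point of an affine plane -/
theorem APla.card_star {S : Finset V} (P : APla B q S) {x : V} (hx : x ∈ S) :
    (B.filter fun b => x ∈ b ∧ b ⊆ S).card = q + 2 := by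
  have h1 : S.erase x = (B.filter fun b => x ∈ b ∧ b ⊆ S).biUnion fun b => b.erase x := by
    ext y
    rw [mem_erase, mem_biUnion]
    constructor
    · rintro ⟨hyx, hy⟩
      refine ⟨bl B x y, mem_filter.2 ⟨H.bB hyx.symm, H.b1 hyx.symm, P.cl x hx y hy hyx.symm⟩,
        mem_erase.2 ⟨hyx, H.b2 hyx.symm⟩⟩
    · rintro ⟨b, hb, hy⟩
      rw [mem_filter] at hb
      rw [mem_erase] at hy
      exact ⟨hy.1, hb.2.2 hy.2⟩
  have h2 : ((B.filter fun b => x ∈ b ∧ b ⊆ S).biUnion fun b => b.erase x).card =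
      (B.filter fun b => x ∈ b ∧ b ⊆ S).card * q := by
    rw [card_biUnion]
    · rw [← smul_eq_mul, ← sum_const]
      refine sum_congr rfl fun b hb => ?_
      rw [mem_filter] at hb
      rw [card_erase_of_mem hb.2.1, H.size b hb.1, Nat.add_sub_cancel]
    · intro b hb c hc hbc
      rw [mem_coe, mem_filter] at hb hc
      rw [Function.onFun, disjoint_left]
      intro y hy hy'
      rw [mem_erase] at hy hy'
      exact hy.1 (H.pt hb.1 hc.1 hbc hy.2 hy'.2 hb.2.1 hc.2.1)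
  have h3 : (S.erase x).card = (q + 2) * q := by
    rw [card_erase_of_mem hx, P.card]
    have : (q + 1) * (q + 1) = (q + 2) * q + 1 := by ring
    omega
  rw [h1, h2] at h3
  have hq := H.hq
  exact Nat.eq_of_mul_eq_mul_right (by omega) h3

/-- the affine plane of an affine point and a block -/
theorem Apt.plane {p : V} (hp : Apt B q p) {g : Finset V} (hg : g ∈ B) (hpg : p ∉ g) :
    ∃ S, APla B q S ∧ p ∈ S ∧ g ⊆ S := by
  obtain ⟨x, hx⟩ : g.Nonempty := by
    rw [← card_pos, H.size g hg]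
    omega
  obtain ⟨y, hy, hyx⟩ := H.two_pts hg x
  have hpx : p ≠ x := fun e => hpg (e ▸ hx)
  have hpy : p ≠ y := fun e => hpg (e ▸ hy)
  have hne : bl B p x ≠ bl B p y := by
    intro e
    have : g = bl B p x := H.un hyx.symm hg (H.bB hpx) hx hy (H.b2 hpx) (e ▸ H.b2 hpy)
    exact hpg (this ▸ H.b1 hpx)
  obtain ⟨S, P, h1, h2⟩ := hp _ (H.bB hpx) _ (H.bB hpy) hne (H.b1 hpx) (H.b1 hpy)
  exact ⟨S, P, h1 (H.b1 hpx), P.sub H (h1 (H.b2 hpx)) (h2 (H.b2 hpy)) hyx.symm hg hx hy⟩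

theorem APla.uniq' {S S' : Finset V} (P : APla B q S) (P' : APla B q S') {p : V} {g : Finset V}
    (hg : g ∈ B) (hpg : p ∉ g) (h1 : p ∈ S) (h2 : g ⊆ S) (h3 : p ∈ S') (h4 : g ⊆ S') : S = S' := by
  obtain ⟨x, hx⟩ : g.Nonempty := by
    rw [← card_pos, H.size g hg]
    omega
  have hpx : p ≠ x := fun e => hpg (e ▸ hx)
  have hne : bl B p x ≠ g := fun e => hpg (e ▸ H.b1 hpx)
  exact P.uniq H P' (H.bB hpx) hg hne (H.b2 hpx) hx (P.cl p h1 x (h2 hx) hpx) h2
    (P'.cl p h3 x (h4 hx) hpx) h4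

/-- the affine plane of an affine point and a point off a block through it -/
theorem Apt.plane' {p x : V} (hp : Apt B q p) {b : Finset V} (hb : b ∈ B) (hpb : p ∈ b)
    (hxb : x ∉ b) : ∃ S, APla B q S ∧ b ⊆ S ∧ x ∈ S := by
  have hpx : p ≠ x := fun e => hxb (e ▸ hpb)
  have hne : b ≠ bl B p x := fun e => hxb (e ▸ H.b2 hpx)
  obtain ⟨S, P, h1, h2⟩ := hp _ hb _ (H.bB hpx) hne hpb (H.b1 hpx)
  exact ⟨S, P, h1, h2 (H.b2 hpx)⟩

/-- the intersection of two different affine planes has no two intersecting blocks -/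
theorem APla.inter {S S' : Finset V} (P : APla B q S) (P' : APla B q S') (hne : S ≠ S')
    {x y z : V} (hx : x ∈ S) (hx' : x ∈ S') (hy : y ∈ S) (hy' : y ∈ S') (hz : z ∈ S)
    (hz' : z ∈ S') (hxy : x ≠ y) : z ∈ bl B x y := by
  by_contra hc
  apply hne
  exact P.uniq' H P' (H.bB hxy) hc hz (P.cl x hx y hy hxy) hz' (P'.cl x hx' y hy' hxy)

end

end Pool.Agent.Helper19.A3
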