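import Mathlib
import Pool.Agent.Helper19.A3.Aff
import Pool.Agent.Helper19.VS.Affine

set_option autoImplicit false
set_option linter.unusedSectionVars false

/-!
# All points of an affine space are affine points
-/

namespace Pool.Agent.Helper19.A3

open Finset Pool.Agent.V11100.VB Pool.Agent.Helper19.VS

theorem affine_apt {K : Type} [Field K] [Fintype K] {W : Type} [AddCommGroup W] [Module K W]
    [Fintype W] [DecidableEq W] {q : ℕ} (hK : Fintype.card K = q + 1) (H : LS (lines K W) q)
    (p : W) : Apt (lines K W) q p := by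
  classical
  intro l hl m hm hlm pl pm
  obtain ⟨a, ha, hap⟩ := H.two_pts hl p
  obtain ⟨c, hc, hcp⟩ := H.two_pts hm p
  have el := (H.bl_eq hap.symm hl pl ha).symm
  have em := (H.bl_eq hcp.symm hm pm hc).symm
  rw [bl_line H hap.symm] at el
  rw [bl_line H hcp.symm] at em
  set u := a - p with hu
  set w := c - p with hw
  have hu0 : u ≠ 0 := sub_ne_zero.2 hap
  have huw : ∀ k : K, k • u ≠ w := by
    intro k hk
    apply hlm
    refine H.un hcp.symm hl hm pl ?_ pm hc
    rw [el, mem_line]
    exact ⟨k, by rw [hk, hw]; abel⟩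
  have hlin : ∀ a b : K, a • u + b • w = 0 → a = 0 ∧ b = 0 := by
    intro a b hab
    have hb : b = 0 := by
      by_contra hb
      apply huw (-(b⁻¹ * a))
      have : b⁻¹ • (a • u + b • w) = 0 := by rw [hab, smul_zero]
      rw [smul_add, smul_smul, smul_smul, inv_mul_cancel₀ hb, one_smul] at this
      rw [neg_smul]
      exact (eq_neg_of_add_eq_zero_right this).symm
    rw [hb, zero_smul, add_zero, smul_eq_zero] at hab
    exact ⟨hab.resolve_right hu0, hb⟩
  let f : K × K → W := fun t => p + t.1 • u + t.2 • w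
  have hf : Function.Injective f := by
    rintro ⟨s, t⟩ ⟨s', t'⟩ h
    have h' : p + s • u + t • w = p + s' • u + t' • w := h
    have h2 : (s - s') • u + (t - t') • w = 0 := by
      have : (p + s • u + t • w) - (p + s' • u + t' • w) = 0 := by rw [h', sub_self]
      rw [← this]
      module
    obtain ⟨h3, h4⟩ := hlin _ _ h2
    rw [sub_eq_zero] at h3 h4
    rw [h3, h4]
  refine ⟨univ.image f, ⟨?_, ?_⟩, ?_, ?_⟩
  · rw [card_image_of_injective _ hf, card_univ, Fintype.card_prod, hK]
  · intro y hy z hz hyz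
    obtain ⟨⟨s, t⟩, -, rfl⟩ := mem_image.1 hy
    obtain ⟨⟨s', t'⟩, -, rfl⟩ := mem_image.1 hz
    rw [bl_line H hyz]
    intro x hx
    rw [mem_line] at hx
    obtain ⟨k, rfl⟩ := hx
    refine mem_image.2 ⟨(s + k * (s' - s), t + k * (t' - t)), mem_univ _, ?_⟩
    simp only [f]
    module
  · rw [el]
    intro x hx
    rw [mem_line] at hx
    obtain ⟨k, rfl⟩ := hx
    exact mem_image.2 ⟨(k, 0), mem_univ _, by simp [f]⟩
  · rw [em]
    intro x hx
    rw [mem_line] at hx
    obtain ⟨k, rfl⟩ := hx
    exact mem_image.2 ⟨(0, k), mem_univ _, by simp [f]⟩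

theorem exists_ag {q : ℕ} (h2 : 2 ≤ q) (hq : IsPrimePow (q + 1)) (j : ℕ) :
    ∃ (W : Type) (_ : Fintype W) (_ : DecidableEq W) (C : Finset (Finset W)), LS C q ∧
      j ≤ Fintype.card W ∧ (q + 1) * (q + 1) < Fintype.card W ∧ ∀ x : W, Apt C q x := by
  classical
  obtain ⟨p, n, hp, hn, hpn⟩ := hq
  have : Fact p.Prime := ⟨hp.nat_prime⟩
  let K := GaloisField p n
  have : Finite K := inferInstance
  have : Fintype K := Fintype.ofFinite K
  have hK : Fintype.card K = q + 1 := by
    rw [← Nat.card_eq_fintype_card, GaloisField.card p n hn.ne', hpn]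
  let W := Fin (j + 3) → K
  have hW : Fintype.card W = (q + 1) ^ (j + 3) := by
    simp only [W, Fintype.card_fun, Fintype.card_fin, hK]
  have H : LS (lines K W) q := lines_LS h2 hK
  refine ⟨W, inferInstance, inferInstance, lines K W, H, ?_, ?_, affine_apt hK H⟩
  · rw [hW]
    have h3 : j < (q + 1) ^ j := Nat.lt_pow_self (by omega)
    have h4 : (q + 1) ^ j ≤ (q + 1) ^ (j + 3) := Nat.pow_le_pow_right (by omega) (by omega)
    omega
  · rw [hW]
    have h3 : (q + 1) ^ 3 ≤ (q + 1) ^ (j + 3) := Nat.pow_le_pow_right (by omega) (by omega)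
    refine lt_of_lt_of_le ?_ h3
    nlinarith

end Pool.Agent.Helper19.A3
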