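import Mathlib
import Pool.Agent.Helper19.A3.Aff

set_option autoImplicit false

/-!
# Two affine planes through an affine point have a common block
-/

namespace Pool.Agent.Helper19.A3

open Finset Pool.Agent.V11100.VB Pool.Agent.Helper19.VS

variable {V : Type} [DecidableEq V] {B : Finset (Finset V)} {q : ℕ}

theorem four_pts (H : LS B q) (hq : 3 ≤ q) {b : Finset V} (hb : b ∈ B) (x y z : V) :
    ∃ w ∈ b, w ≠ x ∧ w ≠ y ∧ w ≠ z := by
  by_contra hc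
  push Not at hc
  have : b ⊆ {x, y, z} := by
    intro w hw
    simp only [mem_insert, mem_singleton]
    by_cases h1 : w = x
    · exact Or.inl h1
    by_cases h2 : w = y
    · exact Or.inr (Or.inl h2)
    exact Or.inr (Or.inr (hc w hw h1 h2))
  have := (card_le_card this).trans card_le_three
  rw [H.size b hb] at this
  omega

/-- the only possible common point of two blocks -/
theorem common (H : LS B q) {b c : Finset V} (hb : b ∈ B) (hc : c ∈ B) (hne : b ≠ c) :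
    ∃ w, ∀ x ∈ b, x ∈ c → x = w := by
  by_cases h : ∃ x, x ∈ b ∧ x ∈ c
  · obtain ⟨w, h1, h2⟩ := h
    exact ⟨w, fun x hx hx' => H.pt hb hc hne hx hx' h1 h2⟩
  · push Not at h
    obtain ⟨w, hw⟩ : b.Nonempty := by
      rw [← card_pos, H.size b hb]
      omega
    exact ⟨w, fun x hx hx' => absurd hx' (h x hx)⟩

/-- two affine planes through `p1` that meet two planes through `p1`, `p2` in blocks have a common
block -/
theorem share (H : LS B q) (hq : 4 ≤ q) {p1 p2 : V} (v1 : Apt B q p1) (v2 : Apt B q p2)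
    (h12 : p1 ≠ p2) {α α' β1 β2 : Finset V} (Pα : APla B q α) (Pα' : APla B q α')
    (P1 : APla B q β1) (P2 : APla B q β2) (hαα : α ≠ α') (hα : bl B p1 p2 ⊆ α)
    (hα' : bl B p1 p2 ⊆ α') (hp1 : p1 ∈ β1) (hp2 : p1 ∈ β2) (n1 : p2 ∉ β1) (n2 : p2 ∉ β2)
    {a1 a2 a1' a2' : V} (ha1 : a1 ∈ α) (ha1b : a1 ∈ β1) (ha1p : a1 ≠ p1) (ha2 : a2 ∈ α)
    (ha2b : a2 ∈ β2) (ha2p : a2 ≠ p1) (ha1' : a1' ∈ α') (ha1b' : a1' ∈ β1) (ha1p' : a1' ≠ p1)
    (ha2' : a2' ∈ α') (ha2b' : a2' ∈ β2) (ha2p' : a2' ≠ p1) :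
    ∃ x, x ≠ p1 ∧ x ∈ β1 ∧ x ∈ β2 := by
  by_contra hcon
  push Not at hcon
  have hc0 : ∀ x, x ∈ β1 → x ∈ β2 → x = p1 := by
    intro x h1 h2
    by_contra h
    exact hcon x h h1 h2
  have L0 := H.bB h12
  -- a plane containing `p1`, `p2`
  have off : ∀ β : Finset V, APla B q β → p1 ∈ β → p2 ∉ β → ∀ x ∈ β, x ≠ p1 →
      x ∉ bl B p1 p2 := by
    intro β P hp n x hx hxp hc
    apply n
    have e := H.bl_eq hxp.symm L0 (H.b1 h12) hc
    exact P.cl p1 hp x hx hxp.symm (e ▸ H.b2 h12)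
  have exα : ∀ x ∈ β1, x ≠ p1 → ∃ S, APla B q S ∧ bl B p1 p2 ⊆ S ∧ x ∈ S := by
    intro x hx hxp
    exact v1.plane' H L0 (H.b1 h12) (off β1 P1 hp1 n1 x hx hxp)
  -- first step
  have C1 : ∀ x ∈ β1, x ≠ p1 → ∀ S, APla B q S → bl B p1 p2 ⊆ S → x ∈ S →
      ∃ z ∈ β2, z ≠ p1 ∧ z ∈ S := by
    intro x hx hxp S PS hS hxS
    by_cases e1 : S = α
    · exact ⟨a2, ha2b, ha2p, e1 ▸ ha2⟩
    by_cases e2 : S = α'
    · exact ⟨a2', ha2b', ha2p', e2 ▸ ha2'⟩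
    have pα : p1 ∈ α := hα (H.b1 h12)
    have pα' : p1 ∈ α' := hα' (H.b1 h12)
    have pS : p1 ∈ S := hS (H.b1 h12)
    have p2S : p2 ∈ S := hS (H.b2 h12)
    have p2α : p2 ∈ α := hα (H.b2 h12)
    have p2α' : p2 ∈ α' := hα' (H.b2 h12)
    -- two planes through `p1`, `p2` have only the points of the block in common
    have only : ∀ S S' : Finset V, APla B q S → APla B q S' → S ≠ S' → bl B p1 p2 ⊆ S →
        bl B p1 p2 ⊆ S' → ∀ z, z ∈ S → z ∈ S' → z ∈ bl B p1 p2 := by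
      intro S S' P P' hne h h' z hz hz'
      exact P.inter H P' hne (h (H.b1 h12)) (h' (H.b1 h12)) (h (H.b2 h12)) (h' (H.b2 h12)) hz hz'
        h12
    have b1s : bl B p1 a1 ⊆ α := Pα.cl p1 pα a1 ha1 ha1p.symm
    have b1s' : bl B p1 a1' ⊆ α' := Pα'.cl p1 pα' a1' ha1' ha1p'.symm
    have b2s : bl B p1 a2 ⊆ α := Pα.cl p1 pα a2 ha2 ha2p.symm
    have b2s' : bl B p1 a2' ⊆ α' := Pα'.cl p1 pα' a2' ha2' ha2p'.symm
    have c1s : bl B p1 a1 ⊆ β1 := P1.cl p1 hp1 a1 ha1b ha1p.symm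
    have c1s' : bl B p1 a1' ⊆ β1 := P1.cl p1 hp1 a1' ha1b' ha1p'.symm
    have c2s : bl B p1 a2 ⊆ β2 := P2.cl p1 hp2 a2 ha2b ha2p.symm
    have c2s' : bl B p1 a2' ⊆ β2 := P2.cl p1 hp2 a2' ha2b' ha2p'.symm
    have B1 := H.bB ha1p.symm
    have B1' := H.bB ha1p'.symm
    have B2 := H.bB ha2p.symm
    have B2' := H.bB ha2p'.symm
    have BX := H.bB hxp.symm
    have xs : bl B p1 x ⊆ S := PS.cl p1 pS x hxS hxp.symm
    have xs1 : bl B p1 x ⊆ β1 := P1.cl p1 hp1 x hx hxp.symm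
    -- choice of `x1`
    have nb2 : p2 ∉ bl B p1 a2 := fun h => n2 (c2s h)
    have nb1 : p2 ∉ bl B p1 a1 := fun h => n1 (c1s h)
    obtain ⟨c, cB, cα, p2c, cd⟩ := Pα.par H B2 b2s p2α nb2
    have cne : bl B p1 a1 ≠ c := fun e => nb1 (e ▸ p2c)
    obtain ⟨y0, hy0⟩ := common H B1 cB cne
    obtain ⟨x1, hx1, hx1p, hx1y⟩ := H.three_pts B1 p1 y0
    have p2x1 : p2 ≠ x1 := fun e => nb1 (e ▸ hx1)
    have tα : bl B p2 x1 ⊆ α := Pα.cl p2 p2α x1 (b1s hx1) p2x1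
    have td : ¬ Disjoint (bl B p2 x1) (bl B p1 a2) := by
      intro hd
      have := Pα.par_un H B2 b2s nb2 (H.bB p2x1) tα (H.b1 p2x1) hd cB cα p2c cd
      exact hx1y (hy0 x1 hx1 (this ▸ H.b2 p2x1))
    rw [not_disjoint_iff] at td
    obtain ⟨x2, hx2t, hx2⟩ := td
    -- choice of `x1'`
    have nb2' : p2 ∉ bl B p1 a2' := fun h => n2 (c2s' h)
    have nb1' : p2 ∉ bl B p1 a1' := fun h => n1 (c1s' h)
    obtain ⟨c', cB', cα', p2c', cd'⟩ := Pα'.par H B2' b2s' p2α' nb2'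
    have cne' : bl B p1 a1' ≠ c' := fun e => nb1' (e ▸ p2c')
    obtain ⟨y0', hy0'⟩ := common H B1' cB' cne'
    have x1off : x1 ∉ bl B p1 p2 := off β1 P1 hp1 n1 x1 (c1s hx1) hx1p
    have x1x : x1 ∉ bl B p1 x := fun h =>
      x1off (only S α PS Pα e1 hS hα x1 (xs h) (b1s hx1))
    have x1a : x1 ∉ bl B p1 a1' := fun h =>
      x1off (only α α' Pα Pα' hαα hα hα' x1 (b1s hx1) (b1s' h))
    obtain ⟨h, hB, h1, xh, hd⟩ := P1.par H BX xs1 (c1s hx1) x1x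
    have hne : bl B p1 a1' ≠ h := fun e => x1a (e ▸ xh)
    obtain ⟨w0, hw0⟩ := common H B1' hB hne
    obtain ⟨x1', hx1', hx1p', hx1y', hx1w⟩ := four_pts H (by omega) B1' p1 y0' w0
    have p2x1' : p2 ≠ x1' := fun e => nb1' (e ▸ hx1')
    have tα' : bl B p2 x1' ⊆ α' := Pα'.cl p2 p2α' x1' (b1s' hx1') p2x1'
    have td' : ¬ Disjoint (bl B p2 x1') (bl B p1 a2') := by
      intro hd
      have := Pα'.par_un H B2' b2s' nb2' (H.bB p2x1') tα' (H.b1 p2x1') hd cB' cα' p2c' cd'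
      exact hx1y' (hy0' x1' hx1' (this ▸ H.b2 p2x1'))
    rw [not_disjoint_iff] at td'
    obtain ⟨x2', hx2t', hx2'⟩ := td'
    -- the block `m1`
    have x11 : x1 ≠ x1' := fun e => x1a (e ▸ hx1')
    have m1B := H.bB x11
    have m1s : bl B x1 x1' ⊆ β1 := P1.cl x1 (c1s hx1) x1' (c1s' hx1') x11
    have m1x : ¬ Disjoint (bl B x1 x1') (bl B p1 x) := by
      intro hdd
      have := P1.par_un H BX xs1 x1x m1B m1s (H.b1 x11) hdd hB h1 xh hd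
      exact hx1w (hw0 x1' hx1' (this ▸ H.b2 x11))
    rw [not_disjoint_iff] at m1x
    obtain ⟨y, hym, hyx⟩ := m1x
    have p2m1 : p2 ∉ bl B x1 x1' := fun h => n1 (m1s h)
    have p1m1 : p1 ∉ bl B x1 x1' := by
      intro hc
      have e3 := H.un hx1p.symm m1B B1 hc (H.b1 x11) (H.b1 ha1p.symm) hx1
      have : x1' ∈ bl B p1 a1 := e3 ▸ H.b2 x11
      have h5 := only α α' Pα Pα' hαα hα hα' x1' (b1s this) (b1s' hx1')
      exact off β1 P1 hp1 n1 x1' (c1s' hx1') hx1p' h5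
    obtain ⟨γ, Pγ, p2γ, m1γ⟩ := v2.plane H m1B p2m1
    have p1γ : p1 ∉ γ := by
      intro hc
      have := Pγ.uniq' H P1 m1B p1m1 hc m1γ hp1 m1s
      exact n1 (this ▸ p2γ)
    have x1γ : x1 ∈ γ := m1γ (H.b1 x11)
    have x1γ' : x1' ∈ γ := m1γ (H.b2 x11)
    have x2γ : x2 ∈ γ := Pγ.cl p2 p2γ x1 x1γ p2x1 hx2t
    have x2γ' : x2' ∈ γ := Pγ.cl p2 p2γ x1' x1γ' p2x1' hx2t'
    have x22 : x2 ≠ x2' := by
      rintro rfl
      have h5 := only α α' Pα Pα' hαα hα hα' x2 (b2s hx2) (b2s' hx2')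
      have h6 : x2 ≠ p1 := fun e => p1γ (e ▸ x2γ)
      exact off β2 P2 hp2 n2 x2 (c2s hx2) h6 h5
    have m2B := H.bB x22
    have m2s : bl B x2 x2' ⊆ β2 := P2.cl x2 (c2s hx2) x2' (c2s' hx2') x22
    have m2γ : bl B x2 x2' ⊆ γ := Pγ.cl x2 x2γ x2' x2γ' x22
    have m12 : Disjoint (bl B x1 x1') (bl B x2 x2') := by
      rw [disjoint_left]
      intro w hw hw'
      have := hc0 w (m1s hw) (m2s hw')
      exact p1γ (this ▸ m1γ hw)
    have p2y : p2 ≠ y := fun e => p2m1 (e ▸ hym)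
    have gγ : bl B p2 y ⊆ γ := Pγ.cl p2 p2γ y (m1γ hym) p2y
    have gne : bl B p2 y ≠ bl B x1 x1' := fun e => p2m1 (e ▸ H.b1 p2y)
    obtain ⟨z, hz1, hz2⟩ := Pγ.meet_par H (H.bB p2y) gγ m1B m1γ m2B m2γ m12 (H.b2 p2y) hym gne
    exact ⟨z, m2s hz2, fun e => p1γ (e ▸ gγ hz1), PS.cl p2 p2S y (xs hyx) p2y hz1⟩
  -- the set `Z`
  classical
  set Z : Finset V := β1.filter fun z => z ≠ p1 ∧ Disjoint (bl B p2 z) β2 with hZ
  have np2 : ∀ z ∈ β1, p2 ≠ z := fun z hz e => n1 (e ▸ hz)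
  have C2 : ∀ x ∈ β1, x ≠ p1 → ∃ z ∈ bl B p1 x, z ∈ Z := by
    intro x hx hxp
    obtain ⟨S, PS, hS, hxS⟩ := exα x hx hxp
    obtain ⟨w, hw, hwp, hwS⟩ := C1 x hx hxp S PS hS hxS
    have pS : p1 ∈ S := hS (H.b1 h12)
    have p2S : p2 ∈ S := hS (H.b2 h12)
    have wB := H.bB hwp.symm
    have ws : bl B p1 w ⊆ S := PS.cl p1 pS w hwS hwp.symm
    have w2 : bl B p1 w ⊆ β2 := P2.cl p1 hp2 w hw hwp.symm
    have xs : bl B p1 x ⊆ S := PS.cl p1 pS x hxS hxp.symm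
    have x1 : bl B p1 x ⊆ β1 := P1.cl p1 hp1 x hx hxp.symm
    have nw : p2 ∉ bl B p1 w := fun h => n2 (w2 h)
    obtain ⟨c, cB, cS, p2c, cd⟩ := PS.par H wB ws p2S nw
    have hne : bl B p1 x ≠ bl B p1 w := by
      intro e
      exact hwp (hc0 w (x1 (e ▸ H.b2 hwp.symm)) hw)
    obtain ⟨z, hz1, hz2⟩ := PS.meet_par H (H.bB hxp.symm) xs wB ws cB cS cd.symm
      (H.b1 hxp.symm) (H.b1 hwp.symm) hne
    have hzp : z ≠ p1 := by
      rintro rfl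
      exact (disjoint_left.1 cd) hz2 (H.b1 hwp.symm)
    refine ⟨z, hz1, mem_filter.2 ⟨x1 hz1, hzp, ?_⟩⟩
    rw [H.bl_eq (np2 z (x1 hz1)) cB p2c hz2, disjoint_left]
    intro u hu hu2
    have hSβ : S ≠ β2 := fun e => n2 (e ▸ p2S)
    have := PS.inter H P2 hSβ pS hp2 hwS hw (cS hu) hu2 hwp.symm
    exact (disjoint_left.1 cd) hu this
  have C2u : ∀ z ∈ Z, ∀ z' ∈ Z, z' ∈ bl B p1 z → z = z' := by
    intro z hz z' hz' hzz
    rw [hZ, mem_filter] at hz hz'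
    obtain ⟨S, PS, hS, hzS⟩ := exα z hz.1 hz.2.1
    obtain ⟨w, hw, hwp, hwS⟩ := C1 z hz.1 hz.2.1 S PS hS hzS
    have pS : p1 ∈ S := hS (H.b1 h12)
    have p2S : p2 ∈ S := hS (H.b2 h12)
    have wB := H.bB hwp.symm
    have ws : bl B p1 w ⊆ S := PS.cl p1 pS w hwS hwp.symm
    have w2 : bl B p1 w ⊆ β2 := P2.cl p1 hp2 w hw hwp.symm
    have nw : p2 ∉ bl B p1 w := fun h => n2 (w2 h)
    have hzS' : z' ∈ S := PS.cl p1 pS z hzS hz.2.1.symm hzz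
    have e := PS.par_un H wB ws nw (H.bB (np2 z hz.1)) (PS.cl p2 p2S z hzS (np2 z hz.1))
      (H.b1 (np2 z hz.1)) (disjoint_of_subset_right w2 hz.2.2) (H.bB (np2 z' hz'.1))
      (PS.cl p2 p2S z' hzS' (np2 z' hz'.1)) (H.b1 (np2 z' hz'.1))
      (disjoint_of_subset_right w2 hz'.2.2)
    by_contra hne
    have e2 := H.un hne (H.bB (np2 z hz.1)) (H.bB hz.2.1.symm) (H.b2 (np2 z hz.1))
      (e ▸ H.b2 (np2 z' hz'.1)) (H.b2 hz.2.1.symm) hzz
    have : p2 ∈ bl B p1 z := e2 ▸ H.b1 (np2 z hz.1)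
    exact n1 (P1.cl p1 hp1 z hz.1 hz.2.1.symm this)
  have Zsub : ∀ z ∈ Z, z ∈ β1 ∧ z ≠ p1 ∧ Disjoint (bl B p2 z) β2 := fun z hz => by
    rw [hZ, mem_filter] at hz; exact hz
  have Zcard : Z.card ≤ q + 2 := by
    rw [← P1.card_star H hp1]
    refine card_le_card_of_injOn (fun z => bl B p1 z) ?_ ?_
    · intro z hz
      have := Zsub z hz
      rw [mem_coe, mem_filter]
      exact ⟨H.bB this.2.1.symm, H.b1 this.2.1.symm, P1.cl p1 hp1 z this.1 this.2.1.symm⟩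
    · intro z hz z' hz' e
      have h2 := Zsub z' hz'
      refine C2u z hz z' hz' ?_
      have e' : bl B p1 z = bl B p1 z' := e
      rw [e']
      exact H.b2 h2.2.1.symm
  have np1g : ∀ z ∈ Z, ∀ z' ∈ Z, z ≠ z' → p1 ∉ bl B z z' := by
    intro z hz z' hz' hne hc
    apply hne
    refine C2u z hz z' hz' ?_
    have h2 := Zsub z hz
    rw [H.bl_eq h2.2.1.symm (H.bB hne) hc (H.b1 hne)]
    exact H.b2 hne
  have C3 : ∀ z ∈ Z, ∀ z' ∈ Z, z ≠ z' → q ≤ (Z ∩ bl B z z').card := by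
    intro z hz z' hz' hne
    have gB := H.bB hne
    have hz1 := Zsub z hz
    have hz1' := Zsub z' hz'
    have g1 : bl B z z' ⊆ β1 := P1.cl z hz1.1 z' hz1'.1 hne
    have p2g : p2 ∉ bl B z z' := fun h => n1 (g1 h)
    have p1g := np1g z hz z' hz' hne
    obtain ⟨γ, Pγ, p2γ, gγ⟩ := v2.plane H gB p2g
    have key : ∀ y ∈ bl B z z' \ Z, ∀ y' ∈ bl B z z' \ Z, y = y' := by
      intro y hy y' hy'
      rw [mem_sdiff] at hy hy'
      have aux : ∀ y ∈ bl B z z', y ∉ Z → ∃ w ∈ bl B p2 y, w ∈ β2 := by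
        intro y hy hyZ
        have hyp : y ≠ p1 := fun e => p1g (e ▸ hy)
        have : ¬ Disjoint (bl B p2 y) β2 := by
          intro hd
          exact hyZ (by rw [hZ]; exact mem_filter.2 ⟨g1 hy, hyp, hd⟩)
        rw [not_disjoint_iff] at this
        exact this
      obtain ⟨w, hw, hw2⟩ := aux y hy.1 hy.2
      obtain ⟨w', hw', hw2'⟩ := aux y' hy'.1 hy'.2
      by_contra hyy
      have h2y := np2 y (g1 hy.1)
      have h2y' := np2 y' (g1 hy'.1)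
      have hll : bl B p2 y ≠ bl B p2 y' := by
        intro e
        have e2 := H.un hyy gB (H.bB h2y) hy.1 hy'.1 (H.b2 h2y) (e ▸ H.b2 h2y')
        exact p2g (e2 ▸ H.b1 h2y)
      have hww : w ≠ w' := by
        rintro rfl
        have := H.pt (H.bB h2y) (H.bB h2y') hll hw hw' (H.b1 h2y) (H.b1 h2y')
        exact n2 (this ▸ hw2)
      have wγ : w ∈ γ := Pγ.cl p2 p2γ y (gγ hy.1) h2y hw
      have wγ' : w' ∈ γ := Pγ.cl p2 p2γ y' (gγ hy'.1) h2y' hw'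
      have hB := H.bB hww
      have h2 : bl B w w' ⊆ β2 := P2.cl w hw2 w' hw2' hww
      have hγ : bl B w w' ⊆ γ := Pγ.cl w wγ w' wγ' hww
      have p2h : p2 ∉ bl B w w' := fun h => n2 (h2 h)
      have zγ : z ∈ γ := gγ (H.b1 hne)
      have zγ' : z' ∈ γ := gγ (H.b2 hne)
      have n3 := np2 z hz1.1
      have n3' := np2 z' hz1'.1
      have e := Pγ.par_un H hB hγ p2h (H.bB n3) (Pγ.cl p2 p2γ z zγ n3) (H.b1 n3)
        (disjoint_of_subset_right h2 hz1.2.2) (H.bB n3') (Pγ.cl p2 p2γ z' zγ' n3') (H.b1 n3')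
        (disjoint_of_subset_right h2 hz1'.2.2)
      have e2 := H.un hne gB (H.bB n3) (H.b1 hne) (H.b2 hne) (H.b2 n3) (e ▸ H.b2 n3')
      exact p2g (e2 ▸ H.b1 n3)
    have h1 : (bl B z z' \ Z).card ≤ 1 := card_le_one.2 key
    have h2 := card_sdiff_add_card_inter (bl B z z') Z
    rw [H.size _ gB] at h2
    rw [inter_comm]
    omega
  -- three points of `Z` not on a block
  obtain ⟨z, hzl, hz⟩ := C2 a1 ha1b ha1p
  obtain ⟨z', hzl', hz'⟩ := C2 a1' ha1b' ha1p'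
  have hz1 := Zsub z hz
  have hz1' := Zsub z' hz'
  have hne : z ≠ z' := by
    rintro rfl
    have pα : p1 ∈ α := hα (H.b1 h12)
    have pα' : p1 ∈ α' := hα' (H.b1 h12)
    have h5 := Pα.inter H Pα' hαα (hα (H.b1 h12)) (hα' (H.b1 h12)) (hα (H.b2 h12))
      (hα' (H.b2 h12)) (Pα.cl p1 pα a1 ha1 ha1p.symm hzl)
      (Pα'.cl p1 pα' a1' ha1' ha1p'.symm hzl') h12
    exact off β1 P1 hp1 n1 z hz1.1 hz1.2.1 h5
  have gB := H.bB hne
  have g1 : bl B z z' ⊆ β1 := P1.cl z hz1.1 z' hz1'.1 hne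
  have p1g := np1g z hz z' hz' hne
  obtain ⟨e, eB, e1, p1e, ed⟩ := P1.par H gB g1 hp1 p1g
  obtain ⟨x, hx, hxp⟩ := H.two_pts eB p1
  obtain ⟨z0, hz0l, hz0⟩ := C2 x (e1 hx) hxp
  rw [H.bl_eq hxp.symm eB p1e hx] at hz0l
  have hz0g : z0 ∉ bl B z z' := (disjoint_left.1 ed) hz0l
  have n0 : z0 ≠ z := fun h => hz0g (by rw [h]; exact H.b1 hne)
  have n0' : z0 ≠ z' := fun h => hz0g (by rw [h]; exact H.b2 hne)
  have k1 := C3 z0 hz0 z hz n0
  have k2 := C3 z0 hz0 z' hz' n0'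
  have k3 : ((Z ∩ bl B z0 z) ∩ (Z ∩ bl B z0 z')).card ≤ 1 := by
    rw [card_le_one]
    intro s hs t ht
    simp only [mem_inter] at hs ht
    refine H.pt (H.bB n0) (H.bB n0') ?_ hs.1.2 hs.2.2 ht.1.2 ht.2.2
    intro e
    have e2 := H.un hne gB (H.bB n0) (H.b1 hne) (H.b2 hne) (H.b2 n0) (e ▸ H.b2 n0')
    exact hz0g (e2 ▸ H.b1 n0)
  have k4 := card_union_add_card_inter (Z ∩ bl B z0 z) (Z ∩ bl B z0 z')
  have k5 : ((Z ∩ bl B z0 z) ∪ (Z ∩ bl B z0 z')).card ≤ Z.card :=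
    card_le_card (union_subset inter_subset_left inter_subset_left)
  omega

end Pool.Agent.Helper19.A3
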