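import Mathlib
import Pool.Agent.Helper19.A3.Share

set_option autoImplicit false
set_option linter.unusedSectionVars false

/-!
# The quotient at an affine point and the completed system
-/

namespace Pool.Agent.Helper19.A3

open Finset Pool.Agent.V11100.VB Pool.Agent.Helper19.VS

variable {V : Type} [DecidableEq V] [Fintype V] {B : Finset (Finset V)} {q : ℕ}

/-- the blocks through `p` -/
abbrev Ln (B : Finset (Finset V)) (p : V) : Type := {b : Finset V // b ∈ B ∧ p ∈ b}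

/-- the blocks through `p` in `S` -/
def star (B : Finset (Finset V)) (p : V) (S : Finset V) : Finset (Ln B p) :=
  univ.filter fun b => b.1 ⊆ S

theorem mem_star {p : V} {S : Finset V} {b : Ln B p} : b ∈ star B p S ↔ b.1 ⊆ S := by
  simp [star]

open Classical in
/-- the blocks of the quotient -/
noncomputable def qB (B : Finset (Finset V)) (q : ℕ) (p : V) : Finset (Finset (Ln B p)) :=
  (univ.filter fun S : Finset V => APla B q S ∧ p ∈ S).image (star B p)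

theorem mem_qB {p : V} {s : Finset (Ln B p)} :
    s ∈ qB B q p ↔ ∃ S, APla B q S ∧ p ∈ S ∧ star B p S = s := by
  classical
  unfold qB
  rw [mem_image]
  constructor
  · rintro ⟨S, h, e⟩
    rw [mem_filter] at h
    exact ⟨S, h.2.1, h.2.2, e⟩
  · rintro ⟨S, h1, h2, e⟩
    exact ⟨S, mem_filter.2 ⟨mem_univ _, h1, h2⟩, e⟩

/-- a system from existence and uniqueness -/
theorem mkLS {W : Type} [DecidableEq W] {C : Finset (Finset W)} {k : ℕ} (hk : 2 ≤ k)
    (hs : ∀ b ∈ C, b.card = k + 1) (he : ∀ w w' : W, w ≠ w' → ∃ b ∈ C, w ∈ b ∧ w' ∈ b)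
    (hu : ∀ w w' : W, w ≠ w' → ∀ b ∈ C, ∀ b' ∈ C, w ∈ b → w' ∈ b → w ∈ b' → w' ∈ b' → b = b') :
    LS C k := by
  refine ⟨hs, ?_, hk⟩
  intro R hR
  obtain ⟨w, w', hw, rfl⟩ := card_eq_two.1 hR
  obtain ⟨b, hb, h1, h2⟩ := he w w' hw
  refine ⟨b, ⟨hb, ?_⟩, ?_⟩
  · intro x hx
    rw [mem_insert, mem_singleton] at hx
    rcases hx with rfl | rfl <;> assumption
  · rintro b' ⟨hb', hs'⟩
    exact hu w w' hw b' hb' b hb (hs' (by simp)) (hs' (by simp)) h1 h2

section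
variable (H : LS B q)
include H

theorem card_star' {p : V} {S : Finset V} (P : APla B q S) (hp : p ∈ S) :
    (star B p S).card = q + 2 := by
  rw [← P.card_star H hp]
  refine card_bij (fun b _ => b.1) ?_ ?_ ?_
  · intro b hb
    rw [mem_star] at hb
    exact mem_filter.2 ⟨b.2.1, b.2.2, hb⟩
  · intro b _ c _ e
    exact Subtype.ext e
  · intro b hb
    rw [mem_filter] at hb
    exact ⟨⟨b, hb.1, hb.2.1⟩, mem_star.2 hb.2.2, rfl⟩

theorem star_inj {p : V} {S S' : Finset V} (P : APla B q S) (P' : APla B q S') {b c : Ln B p}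
    (hbc : b ≠ c) (h1 : b ∈ star B p S) (h2 : c ∈ star B p S) (h3 : b ∈ star B p S')
    (h4 : c ∈ star B p S') : S = S' := by
  rw [mem_star] at h1 h2 h3 h4
  exact P.uniq H P' b.2.1 c.2.1 (fun e => hbc (Subtype.ext e)) b.2.2 c.2.2 h1 h2 h3 h4

theorem qB_LS {p : V} (hp : Apt B q p) : LS (qB B q p) (q + 1) := by
  refine mkLS (by have := H.hq; omega) ?_ ?_ ?_
  · intro s hs
    obtain ⟨S, P, h, rfl⟩ := mem_qB.1 hs
    exact card_star' H P h
  · intro b c hbc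
    obtain ⟨S, P, h1, h2⟩ := hp b.1 b.2.1 c.1 c.2.1 (fun e => hbc (Subtype.ext e)) b.2.2 c.2.2
    exact ⟨star B p S, mem_qB.2 ⟨S, P, h1 b.2.2, rfl⟩, mem_star.2 h1, mem_star.2 h2⟩
  · intro b c hbc s hs s' hs' h1 h2 h3 h4
    obtain ⟨S, P, h, rfl⟩ := mem_qB.1 hs
    obtain ⟨S', P', h', rfl⟩ := mem_qB.1 hs'
    rw [star_inj H P P' hbc h1 h2 h3 h4]

/-- the block through `p` and `y` as a point of the quotient -/
noncomputable def ray {p y : V} (h : p ≠ y) : Ln B p := ⟨bl B p y, H.bB h, H.b1 h⟩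

theorem ray_eq {p y : V} (h : p ≠ y) {b : Ln B p} (hy : y ∈ b.1) : ray H h = b :=
  Subtype.ext (H.bl_eq h b.2.1 b.2.2 hy)

theorem ray_star {p y : V} (h : p ≠ y) {S : Finset V} (P : APla B q S) (hp : p ∈ S)
    (hy : y ∈ S) : ray H h ∈ star B p S := mem_star.2 (P.cl p hp y hy h)

theorem qB_veblen (hq : 4 ≤ q) {p1 p2 : V} (v1 : Apt B q p1) (v2 : Apt B q p2) (h12 : p1 ≠ p2) :
    Veblen (qB B q p1) (ray H h12) := by
  intro l hl m hm hlm pl pm a al b bl' c cm d dm ap bp cp dp g hg h hh ag cg bh dh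
  obtain ⟨α, Pα, pα, rfl⟩ := mem_qB.1 hl
  obtain ⟨α', Pα', pα', rfl⟩ := mem_qB.1 hm
  obtain ⟨β1, P1, p1β, rfl⟩ := mem_qB.1 hg
  obtain ⟨β2, P2, p2β, rfl⟩ := mem_qB.1 hh
  have hαα : α ≠ α' := fun e => hlm (by rw [e])
  have n : ∀ β : Finset V, APla B q β → p1 ∈ β → ∀ a c : Ln B p1, a ≠ ray H h12 →
      c ≠ ray H h12 → a ∈ star B p1 α → c ∈ star B p1 α' → a ∈ star B p1 β →
      c ∈ star B p1 β → p2 ∉ β := by
    intro β P hp a c ha hc h1 h2 h3 h4 hn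
    have h5 := ray_star H h12 P hp hn
    have e1 := star_inj H Pα P ha h1 pl h3 h5
    have e2 := star_inj H Pα' P hc h2 pm h4 h5
    exact hαα (e1.trans e2.symm)
  have n1 := n β1 P1 p1β a c ap cp al cm ag cg
  have n2 := n β2 P2 p2β b d bp dp bl' dm bh dh
  obtain ⟨a1, ha1, ha1p⟩ := H.two_pts a.2.1 p1
  obtain ⟨a2, ha2, ha2p⟩ := H.two_pts b.2.1 p1
  obtain ⟨a1', ha1', ha1p'⟩ := H.two_pts c.2.1 p1
  obtain ⟨a2', ha2', ha2p'⟩ := H.two_pts d.2.1 p1
  rw [mem_star] at al bl' cm dm ag cg bh dh pl pm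
  obtain ⟨x, hx, hx1, hx2⟩ := share H hq v1 v2 h12 Pα Pα' P1 P2 hαα pl pm p1β p2β n1 n2
    (al ha1) (ag ha1) ha1p (bl' ha2) (bh ha2) ha2p (cm ha1') (cg ha1') ha1p' (dm ha2') (dh ha2')
    ha2p'
  exact ⟨ray H hx.symm, ray_star H hx.symm P1 p1β hx1, ray_star H hx.symm P2 p2β hx2⟩

end

/-- `m` is the block `b` through `p`, or a parallel of `b` -/
def Dir (B : Finset (Finset V)) (q : ℕ) (p : V) (m : Finset V) (b : Ln B p) : Prop :=
  m = b.1 ∨ (p ∉ m ∧ Disjoint m b.1 ∧ ∃ S, APla B q S ∧ m ⊆ S ∧ b.1 ⊆ S)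

section
variable (H : LS B q) {p : V}
include H

theorem dir_ex (hp : Apt B q p) {m : Finset V} (hm : m ∈ B) : ∃ b, Dir B q p m b := by
  by_cases h : p ∈ m
  · exact ⟨⟨m, hm, h⟩, Or.inl rfl⟩
  · obtain ⟨S, P, h1, h2⟩ := hp.plane H hm h
    obtain ⟨e, eB, e1, pe, d⟩ := P.par H hm h2 h1 h
    exact ⟨⟨e, eB, pe⟩, Or.inr ⟨h, d.symm, S, P, h2, e1⟩⟩

theorem dir_un {m : Finset V} (hm : m ∈ B) {b b' : Ln B p} (h : Dir B q p m b)
    (h' : Dir B q p m b') : b = b' := by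
  rcases h with h | ⟨h1, h2, S, P, h3, h4⟩
  · rcases h' with h' | ⟨h1', -⟩
    · exact Subtype.ext (h.symm.trans h')
    · exact absurd (h ▸ b.2.2) h1'
  · rcases h' with h' | ⟨h1', h2', S', P', h3', h4'⟩
    · exact absurd (h' ▸ b'.2.2) h1
    · have e := P.uniq' H P' hm h1 (h4 b.2.2) h3 (h4' b'.2.2) h3'
      subst e
      exact Subtype.ext (P.par_un H hm h3 h1 b.2.1 h4 b.2.2 h2.symm b'.2.1 h4' b'.2.2 h2'.symm)

theorem dir_ex' (hp : Apt B q p) (x : V) (b : Ln B p) : ∃ m ∈ B, x ∈ m ∧ Dir B q p m b := by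
  by_cases h : x ∈ b.1
  · exact ⟨b.1, b.2.1, h, Or.inl rfl⟩
  · obtain ⟨S, P, h1, h2⟩ := hp.plane' H b.2.1 b.2.2 h
    obtain ⟨m, mB, m1, xm, d⟩ := P.par H b.2.1 h1 h2 h
    exact ⟨m, mB, xm, Or.inr ⟨fun hc => (disjoint_left.1 d) hc b.2.2, d, S, P, m1, h1⟩⟩

theorem dir_un' {x : V} {b : Ln B p} {m m' : Finset V} (hm : m ∈ B) (hm' : m' ∈ B) (hx : x ∈ m)
    (hx' : x ∈ m') (h : Dir B q p m b) (h' : Dir B q p m' b) : m = m' := by
  rcases h with h | ⟨h1, h2, S, P, h3, h4⟩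
  · rcases h' with h' | ⟨h1', h2', -⟩
    · exact h.trans h'.symm
    · exact absurd (h ▸ hx) ((disjoint_left.1 h2') hx')
  · rcases h' with h' | ⟨h1', h2', S', P', h3', h4'⟩
    · exact absurd (h' ▸ hx') ((disjoint_left.1 h2) hx)
    · have hxb := (disjoint_left.1 h2) hx
      have e := P.uniq' H P' b.2.1 hxb (h3 hx) h4 (h3' hx') h4'
      subst e
      exact P.par_un H b.2.1 h4 hxb hm h3 hx h2 hm' h3' hx' h2'

end

open Classical in
/-- the completed system -/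
noncomputable def cB (B : Finset (Finset V)) (q : ℕ) (p : V) : Finset (Finset (V ⊕ Ln B p)) :=
  univ.filter fun s => (∃ m ∈ B, ∃ b, Dir B q p m b ∧ s = m.disjSum {b}) ∨
    ∃ t ∈ qB B q p, s = (∅ : Finset V).disjSum t

theorem mem_cB {p : V} {s : Finset (V ⊕ Ln B p)} : s ∈ cB B q p ↔
    (∃ m ∈ B, ∃ b, Dir B q p m b ∧ s = m.disjSum {b}) ∨
      ∃ t ∈ qB B q p, s = (∅ : Finset V).disjSum t := by
  simp [cB]

section
variable (H : LS B q) {p : V}
include H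

theorem cB_LS (hp : Apt B q p) : LS (cB B q p) (q + 1) := by
  have HQ := qB_LS H hp
  have key : ∀ w w' : V ⊕ Ln B p, w ≠ w' → ∃ b ∈ cB B q p, w ∈ b ∧ w' ∈ b := by
    intro w w' hw
    rcases w with x | b <;> rcases w' with y | c
    · have hxy : x ≠ y := fun e => hw (by rw [e])
      obtain ⟨b, hb⟩ := dir_ex H hp (H.bB hxy)
      exact ⟨_, mem_cB.2 (Or.inl ⟨_, H.bB hxy, b, hb, rfl⟩), by simpa using H.b1 hxy,
        by simpa using H.b2 hxy⟩
    · obtain ⟨m, mB, xm, hd⟩ := dir_ex' H hp x c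
      exact ⟨_, mem_cB.2 (Or.inl ⟨m, mB, c, hd, rfl⟩), by simpa using xm, by simp⟩
    · obtain ⟨m, mB, xm, hd⟩ := dir_ex' H hp y b
      exact ⟨_, mem_cB.2 (Or.inl ⟨m, mB, b, hd, rfl⟩), by simp, by simpa using xm⟩
    · have hbc : b ≠ c := fun e => hw (by rw [e])
      exact ⟨_, mem_cB.2 (Or.inr ⟨_, HQ.bB hbc, rfl⟩), by simpa using HQ.b1 hbc,
        by simpa using HQ.b2 hbc⟩
  refine mkLS (by have := H.hq; omega) ?_ key ?_
  · intro s hs
    rcases mem_cB.1 hs with ⟨m, hm, b, -, rfl⟩ | ⟨t, ht, rfl⟩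
    · rw [card_disjSum, H.size m hm, card_singleton]
    · rw [card_disjSum, HQ.size t ht, card_empty]
      omega
  · intro w w' hw s hs s' hs' h1 h2 h3 h4
    rcases mem_cB.1 hs with ⟨m, hm, b, hd, rfl⟩ | ⟨t, ht, rfl⟩ <;>
      rcases mem_cB.1 hs' with ⟨m', hm', b', hd', rfl⟩ | ⟨t', ht', rfl⟩ <;>
      rcases w with x | c <;> rcases w' with y | c' <;>
      simp only [inl_mem_disjSum, inr_mem_disjSum, mem_singleton, notMem_empty] at h1 h2 h3 h4
    · have hxy : x ≠ y := fun e => hw (by rw [e])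
      have e := H.un hxy hm hm' h1 h2 h3 h4
      subst e
      rw [dir_un H hm hd hd']
    · subst h2; subst h4
      rw [dir_un' H hm hm' h1 h3 hd hd']
    · subst h1; subst h3
      rw [dir_un' H hm hm' h2 h4 hd hd']
    · exact absurd (by rw [h1, h2]) hw
    · exact absurd (by rw [h1, h2]) hw
    · exact absurd (by rw [h3, h4]) hw
    · have hcc : c ≠ c' := fun e => hw (by rw [e])
      rw [HQ.un hcc ht ht' h1 h2 h3 h4]

theorem star_surj (hp : Apt B q p) {A : Finset V} (PA : APla B q A) {R : Finset (Ln B p)}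
    (hR : R.card = q + 2) (h1 : ∀ g ∈ B, g ⊆ A → ∀ b, Dir B q p g b → b ∈ R) {y : V}
    (hy : y ∈ A) {e : Ln B p} (he : e ∈ R) : ∃ g ∈ B, g ⊆ A ∧ y ∈ g ∧ Dir B q p g e := by
  classical
  have hex : ∀ m : Finset V, m ∈ B → ∃ b, Dir B q p m b := fun m hm => dir_ex H hp hm
  have : Nonempty (Ln B p) := ⟨e⟩
  choose! d hd using hex
  have e1 : (B.filter fun b => y ∈ b ∧ b ⊆ A).image d = R := by
    apply eq_of_subset_of_card_le
    · intro b hb
      obtain ⟨g, hg, rfl⟩ := mem_image.1 hb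
      rw [mem_filter] at hg
      exact h1 g hg.1 hg.2.2 _ (hd g hg.1)
    · rw [hR, card_image_of_injOn, PA.card_star H hy]
      intro g hg g' hg' e
      rw [mem_coe, mem_filter] at hg hg'
      exact dir_un' H hg.1 hg'.1 hg.2.1 hg'.2.1 (hd g hg.1) (e ▸ hd g' hg'.1)
  rw [← e1] at he
  obtain ⟨g, hg, rfl⟩ := mem_image.1 he
  rw [mem_filter] at hg
  exact ⟨g, hg.1, hg.2.2, hg.2.1, hd g hg.1⟩

theorem comp_pla (hp : Apt B q p) {A : Finset V} (PA : APla B q A) {R : Finset (Ln B p)}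
    (hR : R ∈ qB B q p) (h1 : ∀ g ∈ B, g ⊆ A → ∀ b, Dir B q p g b → b ∈ R) :
    V3.Pla (cB B q p) (q + 1) (A.disjSum R) := by
  have HQ := qB_LS H hp
  have HC := cB_LS H hp
  have hRc : R.card = q + 2 := HQ.size R hR
  refine ⟨?_, ?_⟩
  · rw [card_disjSum, PA.card, hRc]
    ring
  · have key : ∀ w ∈ A.disjSum R, ∀ w' ∈ A.disjSum R, w ≠ w' →
        ∃ s ∈ cB B q p, w ∈ s ∧ w' ∈ s ∧ s ⊆ A.disjSum R := by
      have sub : ∀ m : Finset V, ∀ b : Ln B p, m ⊆ A → b ∈ R →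
          m.disjSum {b} ⊆ A.disjSum R := by
        intro m b hm hb
        exact disjSum_mono hm (by simpa using hb)
      intro w hw w' hw' hne
      rcases w with x | b <;> rcases w' with y | c <;>
        simp only [inl_mem_disjSum, inr_mem_disjSum] at hw hw'
      · have hxy : x ≠ y := fun e => hne (by rw [e])
        obtain ⟨b, hb⟩ := dir_ex H hp (H.bB hxy)
        have hs := PA.cl x hw y hw' hxy
        exact ⟨_, mem_cB.2 (Or.inl ⟨_, H.bB hxy, b, hb, rfl⟩), by simpa using H.b1 hxy,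
          by simpa using H.b2 hxy, sub _ _ hs (h1 _ (H.bB hxy) hs b hb)⟩
      · obtain ⟨g, gB, gA, yg, hd⟩ := star_surj H hp PA hRc h1 hw hw'
        exact ⟨_, mem_cB.2 (Or.inl ⟨g, gB, c, hd, rfl⟩), by simpa using yg, by simp,
          sub _ _ gA hw'⟩
      · obtain ⟨g, gB, gA, yg, hd⟩ := star_surj H hp PA hRc h1 hw' hw
        exact ⟨_, mem_cB.2 (Or.inl ⟨g, gB, b, hd, rfl⟩), by simp, by simpa using yg,
          sub _ _ gA hw⟩
      · exact ⟨_, mem_cB.2 (Or.inr ⟨R, hR, rfl⟩), by simpa using hw, by simpa using hw',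
          disjSum_mono (empty_subset _) (Subset.refl _)⟩
    intro w hw w' hw' hne
    obtain ⟨s, hs, h2, h3, h4⟩ := key w hw w' hw' hne
    rw [HC.bl_eq hne hs h2 h3]
    exact h4

theorem comp_in {A : Finset V} (PA : APla B q A) (hpA : p ∈ A) :
    ∀ g ∈ B, g ⊆ A → ∀ b, Dir B q p g b → b ∈ star B p A := by
  intro g hg hgA b hb
  rw [mem_star]
  rcases hb with hb | ⟨h1, h2, S, P, h3, h4⟩
  · rw [← hb]; exact hgA
  · rw [PA.uniq' H P hg h1 hpA hgA (h4 b.2.2) h3]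
    exact h4

end

end Pool.Agent.Helper19.A3
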