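import Mathlib
import Pool.Agent.Helper19.A3.Quot
import Pool.Agent.Helper19.V3.Two

set_option autoImplicit false
set_option linter.unusedSectionVars false

/-!
# Removing a hyperplane from a Steiner system
-/

namespace Pool.Agent.Helper19.A3

open Finset Pool.Agent.V11100.VB Pool.Agent.Helper19.VS Pool.Agent.Helper19.V3

section
variable {W : Type} [DecidableEq W] [Fintype W]

/-- every block is contained in `Λ` or has exactly one point in `Λ` -/
def Hyp (C : Finset (Finset W)) (Λ : Finset W) : Prop :=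
  ∀ b ∈ C, b ⊆ Λ ∨ ∃ x ∈ b, x ∈ Λ ∧ ∀ y ∈ b, y ∈ Λ → y = x

/-- the trace on the complement -/
def tr (Λ : Finset W) (b : Finset W) : Finset {x : W // x ∉ Λ} := univ.filter fun x => x.1 ∈ b

theorem mem_tr {Λ b : Finset W} {x : {x : W // x ∉ Λ}} : x ∈ tr Λ b ↔ x.1 ∈ b := by
  simp [tr]

theorem card_tr (Λ b : Finset W) : (tr Λ b).card = (b \ Λ).card := by
  refine card_bij (fun x _ => x.1) ?_ ?_ ?_
  · intro x hx
    exact mem_sdiff.2 ⟨mem_tr.1 hx, x.2⟩
  · intro x _ y _ e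
    exact Subtype.ext e
  · intro x hx
    rw [mem_sdiff] at hx
    exact ⟨⟨x, hx.2⟩, mem_tr.2 hx.1, rfl⟩

/-- the blocks off `Λ` -/
def rB (C : Finset (Finset W)) (Λ : Finset W) : Finset (Finset {x : W // x ∉ Λ}) :=
  (C.filter fun b => ¬ b ⊆ Λ).image (tr Λ)

theorem mem_rB {C : Finset (Finset W)} {Λ : Finset W} {s : Finset {x : W // x ∉ Λ}} :
    s ∈ rB C Λ ↔ ∃ b ∈ C, ¬ b ⊆ Λ ∧ tr Λ b = s := by
  unfold rB
  rw [mem_image]
  constructor
  · rintro ⟨b, h, e⟩
    rw [mem_filter] at h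
    exact ⟨b, h.1, h.2, e⟩
  · rintro ⟨b, h1, h2, e⟩
    exact ⟨b, mem_filter.2 ⟨h1, h2⟩, e⟩

variable {C : Finset (Finset W)} {Λ : Finset W} {k : ℕ}

theorem rB_LS (H : LS C (k + 1)) (hk : 2 ≤ k) (hΛ : Hyp C Λ) : LS (rB C Λ) k := by
  refine mkLS hk ?_ ?_ ?_
  · intro s hs
    obtain ⟨b, hb, hn, rfl⟩ := mem_rB.1 hs
    rcases hΛ b hb with h | ⟨x, hx, hxΛ, hu⟩
    · exact absurd h hn
    · rw [card_tr]
      have e : b \ Λ = b.erase x := by
        ext y
        rw [mem_sdiff, mem_erase]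
        constructor
        · rintro ⟨h1, h2⟩
          exact ⟨fun e => h2 (e ▸ hxΛ), h1⟩
        · rintro ⟨h1, h2⟩
          exact ⟨h2, fun hc => h1 (hu y h2 hc)⟩
      rw [e, card_erase_of_mem hx, H.size b hb]
      omega
  · intro x y hxy
    have hne : x.1 ≠ y.1 := fun e => hxy (Subtype.ext e)
    exact ⟨_, mem_rB.2 ⟨_, H.bB hne, fun h => x.2 (h (H.b1 hne)), rfl⟩, mem_tr.2 (H.b1 hne),
      mem_tr.2 (H.b2 hne)⟩
  · intro x y hxy s hs s' hs' h1 h2 h3 h4
    have hne : x.1 ≠ y.1 := fun e => hxy (Subtype.ext e)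
    obtain ⟨b, hb, hn, rfl⟩ := mem_rB.1 hs
    obtain ⟨b', hb', hn', rfl⟩ := mem_rB.1 hs'
    rw [mem_tr] at h1 h2 h3 h4
    rw [H.un hne hb hb' h1 h2 h3 h4]

theorem rB_apt (H : LS C (k + 1)) (hk : 2 ≤ k) (hΛ : Hyp C Λ) (p : {x : W // x ∉ Λ})
    (hp : Veblen C p.1) : Apt (rB C Λ) k p := by
  have HR := rB_LS H hk hΛ
  intro l hl m hm hlm pl' pm
  obtain ⟨L, hL, hLn, rfl⟩ := mem_rB.1 hl
  obtain ⟨M, hM, hMn, rfl⟩ := mem_rB.1 hm
  rw [mem_tr] at pl' pm
  have hLM : L ≠ M := fun e => hlm (by rw [e])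
  obtain ⟨x0, hx0, hx0Λ, -⟩ := (hΛ L hL).resolve_left hLn
  obtain ⟨y0, hy0, hy0Λ, -⟩ := (hΛ M hM).resolve_left hMn
  have hxp : x0 ≠ p.1 := fun e => p.2 (e ▸ hx0Λ)
  have hyp : y0 ≠ p.1 := fun e => p.2 (e ▸ hy0Λ)
  have hxy : x0 ≠ y0 := by
    rintro rfl
    exact hxp (H.pt hL hM hLM hx0 hy0 pl' pm)
  have gB := H.bB hxy
  have pg : p.1 ∉ bl C x0 y0 := by
    intro hc
    have e1 := H.un hxp gB hL (H.b1 hxy) hc hx0 pl'
    have e2 := H.un hyp gB hM (H.b2 hxy) hc hy0 pm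
    exact hLM (e1.symm.trans e2)
  have P := pla_pl H hp gB pg
  set S := pl C p.1 (bl C x0 y0) with hS
  have pS : p.1 ∈ S := H.p_mem gB pg
  have gS : bl C x0 y0 ⊆ S := H.L_sub pg
  have LS' : L ⊆ S := by
    have := P.cl p.1 pS x0 (gS (H.b1 hxy)) hxp.symm
    rwa [H.bl_eq hxp.symm hL pl' hx0] at this
  have MS' : M ⊆ S := by
    have := P.cl p.1 pS y0 (gS (H.b2 hxy)) hyp.symm
    rwa [H.bl_eq hyp.symm hM pm hy0] at this
  have gΛ : bl C x0 y0 ⊆ Λ := by
    rcases hΛ _ gB with h | ⟨x, hx, hxΛ, hu⟩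
    · exact h
    · exact absurd ((hu x0 (H.b1 hxy) hx0Λ).trans (hu y0 (H.b2 hxy) hy0Λ).symm) hxy
  have SΛ : S ∩ Λ = bl C x0 y0 := by
    ext y
    rw [mem_inter]
    constructor
    · rintro ⟨h1, h2⟩
      by_contra hc
      have hyp' : p.1 ≠ y := fun e => p.2 (e ▸ h2)
      obtain ⟨w, hw, hw'⟩ := P.meet H (H.bB hyp') gB (P.cl p.1 pS y h1 hyp') gS
      have hwy : w ≠ y := fun e => hc (e ▸ hw')
      rcases hΛ _ (H.bB hyp') with h | ⟨x, hx, hxΛ, hu⟩
      · exact p.2 (h (H.b1 hyp'))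
      · exact hwy ((hu w hw (gΛ hw')).trans (hu y (H.b2 hyp') h2).symm)
    · intro h
      exact ⟨gS h, gΛ h⟩
  refine ⟨tr Λ S, ⟨?_, ?_⟩, ?_, ?_⟩
  · rw [card_tr, card_sdiff, inter_comm, SΛ, P.card, H.size _ gB]
    have : (k + 1 + 1) * (k + 1) + 1 = (k + 1) * (k + 1) + (k + 1 + 1) := by ring
    omega
  · intro x hx y hy hxy
    have hne : x.1 ≠ y.1 := fun e => hxy (Subtype.ext e)
    rw [mem_tr] at hx hy
    have : bl (rB C Λ) x y = tr Λ (bl C x.1 y.1) :=
      HR.bl_eq hxy (mem_rB.2 ⟨_, H.bB hne, fun h => x.2 (h (H.b1 hne)), rfl⟩)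
        (mem_tr.2 (H.b1 hne)) (mem_tr.2 (H.b2 hne))
    rw [this]
    intro z hz
    exact mem_tr.2 (P.cl x.1 hx y.1 hy hne (mem_tr.1 hz))
  · intro z hz
    exact mem_tr.2 (LS' (mem_tr.1 hz))
  · intro z hz
    exact mem_tr.2 (MS' (mem_tr.1 hz))

end

/-! ### two affine points -/

section
variable {G E I : Type}

/-- relabelling of the symbols -/
theorem OA.relabel {γ : G → E → I} (O : OA G E I γ) (σ : E → Equiv.Perm I) :
    OA G E I (fun d e => σ e (γ d e)) := by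
  refine ⟨?_, ?_, ?_⟩
  · intro z z' hz i i'
    obtain ⟨g, h1, h2⟩ := O.ex z z' hz ((σ z).symm i) ((σ z').symm i')
    exact ⟨g, by simp [h1], by simp [h2]⟩
  · intro z z' hz g g' h1 h2
    exact O.un z z' hz g g' ((σ z).injective h1) ((σ z').injective h2)
  · intro g g'
    obtain ⟨z, hz⟩ := O.agree g g'
    exact ⟨z, by simp [hz]⟩

/-- an array in which the rows with symbol `i0` in column `z` are those with equal symbols in the
columns `e1`, `e2` -/
theorem OA.diag [Fintype I] [DecidableEq E] {γ : G → E → I} (O : OA G E I γ) {e1 e2 z : E}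
    (h12 : e1 ≠ e2) (h1z : e1 ≠ z) (h2z : e2 ≠ z) (i0 : I) :
    ∃ γ' : G → E → I, OA G E I γ' ∧ ∀ d, γ' d z = i0 ↔ γ' d e1 = γ' d e2 := by
  classical
  have hex : ∀ i : I, ∃ d, γ d e1 = i ∧ γ d z = i0 := fun i => O.ex e1 z h1z i i0
  choose r hr1 hr2 using hex
  have hinj : Function.Injective (fun i => γ (r i) e2) := by
    intro i j h
    have h' : γ (r i) e2 = γ (r j) e2 := h
    have := O.un e2 z h2z _ _ h' ((hr2 i).trans (hr2 j).symm)
    rw [← hr1 i, ← hr1 j, this]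
  let τ : Equiv.Perm I := Equiv.ofBijective _ (Finite.injective_iff_bijective.1 hinj)
  have hτ : ∀ i, τ i = γ (r i) e2 := fun i => rfl
  refine ⟨_, OA.relabel O (fun e => if e = e2 then τ.symm else 1), ?_⟩
  intro d
  simp only [if_neg h2z.symm, if_neg h12, if_pos, Equiv.Perm.one_apply]
  rw [Equiv.eq_symm_apply, hτ]
  constructor
  · intro h
    have : d = r (γ d e1) := O.un e1 z h1z _ _ (hr1 _).symm (h.trans (hr2 _).symm)
    rw [← this]
  · intro h
    have : d = r (γ d e1) := O.un e1 e2 h12 _ _ (hr1 _).symm h.symm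
    rw [this]
    exact hr2 _

variable [Fintype G] [Fintype E] [Fintype I] [DecidableEq G] [DecidableEq E] [DecidableEq I]

open Classical in
/-- the hyperplane -/
noncomputable def hyp (γ : G → E → I) (z : E) (i0 : I) : Finset (E ⊕ (E × G)) :=
  univ.filter fun w => Sum.elim (fun t => t = z) (fun t : E × G => γ t.2 z = i0) w

theorem inl_mem_hyp {γ : G → E → I} {z : E} {i0 : I} {t : E} :
    (.inl t : E ⊕ (E × G)) ∈ hyp γ z i0 ↔ t = z := by
  simp [hyp]

theorem inr_mem_hyp {γ : G → E → I} {z : E} {i0 : I} {t : E × G} :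
    (.inr t : E ⊕ (E × G)) ∈ hyp γ z i0 ↔ γ t.2 z = i0 := by
  simp [hyp]

theorem sys_hyp {γ : G → E → I} (O : OA G E I γ) {e1 e2 z : E} (h12 : e1 ≠ e2) {i0 : I}
    (hd : ∀ d, γ d z = i0 ↔ γ d e1 = γ d e2) : Hyp (sys γ e1 e2) (hyp γ z i0) := by
  intro b hb
  obtain ⟨k, hk⟩ := mem_sys.1 hb
  rcases k with _ | ⟨e, z', i⟩ | ⟨g, f⟩
  · right
    refine ⟨.inl z, (hk _).2 trivial, inl_mem_hyp.2 rfl, ?_⟩
    intro y hy hy'
    rcases y with t | t
    · rw [inl_mem_hyp] at hy'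
      rw [hy']
    · exact absurd ((hk _).1 hy) id
  · by_cases hz : z' = z
    · subst hz
      by_cases hi : i = i0
      · subst hi
        left
        intro y hy
        rw [hk] at hy
        rcases y with t | t
        · exact inl_mem_hyp.2 hy
        · exact inr_mem_hyp.2 hy.2
      · right
        refine ⟨.inl z', (hk _).2 rfl, inl_mem_hyp.2 rfl, ?_⟩
        intro y hy hy'
        rw [hk] at hy
        rcases y with t | t
        · rw [inl_mem_hyp] at hy'
          rw [hy']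
        · rw [inr_mem_hyp] at hy'
          exact absurd (hy.2.symm.trans hy') hi
    · right
      obtain ⟨d, h1, h2⟩ := O.ex z' z hz i i0
      refine ⟨.inr (e, d), (hk _).2 ⟨rfl, h1⟩, inr_mem_hyp.2 h2, ?_⟩
      intro y hy hy'
      rw [hk] at hy
      rcases y with t | ⟨a, t⟩
      · rw [inl_mem_hyp] at hy'
        exact absurd (hy.symm.trans hy') hz
      · rw [inr_mem_hyp] at hy'
        obtain ⟨h3, h4⟩ := hy
        simp only at h3 h4 hy'
        rw [h3, O.un z' z hz t d (h4.trans h1.symm) (hy'.trans h2.symm)]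
  · by_cases hgf : g = f
    · subst hgf
      left
      intro y hy
      rw [hk] at hy
      rcases y with t | t
      · exact absurd hy id
      · rw [inr_mem_hyp, hd]
        exact hy.1.trans hy.2.symm
    · right
      obtain ⟨a, ha⟩ := O.agree g f
      obtain ⟨d, h1, h2⟩ := O.ex e1 e2 h12 (γ g a) (γ f a)
      refine ⟨.inr (a, d), (hk _).2 ⟨h1, h2⟩, ?_, ?_⟩
      · rw [inr_mem_hyp, hd]
        show γ d e1 = γ d e2
        rw [h1, h2, ha]
      · intro y hy hy'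
        rw [hk] at hy
        rcases y with t | ⟨a', t⟩
        · exact absurd hy id
        · rw [inr_mem_hyp, hd] at hy'
          obtain ⟨h3, h4⟩ := hy
          simp only at h3 h4 hy'
          have haa : a' = a := by
            by_contra hne
            exact hgf (O.un a' a hne g f (by rw [← h3, ← h4, hy']) ha)
          subst haa
          rw [O.un e1 e2 h12 t d (h3.trans h1.symm) (h4.trans h2.symm)]

end

/-- for every projective plane of order `k + 1` there is a system with blocks of `k + 1` points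
and two affine points -/
theorem exists_twoA {V : Type} [DecidableEq V] [Fintype V] {B : Finset (Finset V)} {k : ℕ}
    (H : LS B (k + 1)) (hk : 2 ≤ k) (P : Pla B (k + 1) univ) :
    ∃ (W : Type) (_ : Fintype W) (_ : DecidableEq W) (C : Finset (Finset W)), LS C k ∧
      (k + 1) * (k + 1) < Fintype.card W ∧ ∃ x y : W, x ≠ y ∧ Apt C k x ∧ Apt C k y := by
  classical
  obtain ⟨G, _, γ0, O0⟩ := exists_OA H P
  have e12 : (⟨0, by omega⟩ : Fin (k + 1 + 1)) ≠ ⟨1, by omega⟩ := by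
    intro h
    simp at h
  have e13 : (⟨0, by omega⟩ : Fin (k + 1 + 1)) ≠ ⟨2, by omega⟩ := by
    intro h
    simp at h
  have e23 : (⟨1, by omega⟩ : Fin (k + 1 + 1)) ≠ ⟨2, by omega⟩ := by
    intro h
    simp at h
  obtain ⟨γ, O, hd⟩ := OA.diag O0 e12 e13 e23 (⟨0, by omega⟩ : Fin (k + 1))
  have HS := sys_LS O e12 H.hq (by simp) (by simp)
  have hΛ := sys_hyp O e12 hd
  set Λ := hyp γ (⟨2, by omega⟩ : Fin (k + 1 + 1)) (⟨0, by omega⟩ : Fin (k + 1)) with hΛdef
  have n1 : (.inl ⟨0, by omega⟩ : Fin (k + 1 + 1) ⊕ (Fin (k + 1 + 1) × G)) ∉ Λ := by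
    rw [hΛdef, inl_mem_hyp]
    exact e13
  have n2 : (.inl ⟨1, by omega⟩ : Fin (k + 1 + 1) ⊕ (Fin (k + 1 + 1) × G)) ∉ Λ := by
    rw [hΛdef, inl_mem_hyp]
    exact e23
  refine ⟨{w : Fin (k + 1 + 1) ⊕ (Fin (k + 1 + 1) × G) // w ∉ Λ}, inferInstance, inferInstance,
    rB (sys γ _ _) Λ, rB_LS HS hk hΛ, ?_, ⟨_, n1⟩, ⟨_, n2⟩, ?_,
    rB_apt HS hk hΛ _ (sys_veblen O e12), rB_apt HS hk hΛ _ (sys_veblen' O e12)⟩
  · have h1 : Λ.card ≤ 1 + (k + 1 + 1) * (k + 1) := by
      have : Λ ⊆ insert (.inl ⟨2, by omega⟩) (((univ : Finset (Fin (k + 1 + 1))) ×ˢ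
          (univ.filter fun d => γ d (⟨2, by omega⟩ : Fin (k + 1 + 1)) =
            (⟨0, by omega⟩ : Fin (k + 1)))).image Sum.inr) := by
        intro w hw
        rcases w with t | t
        · rw [hΛdef, inl_mem_hyp] at hw
          rw [hw]
          exact mem_insert_self _ _
        · rw [hΛdef, inr_mem_hyp] at hw
          refine mem_insert_of_mem (mem_image.2 ⟨t, ?_, rfl⟩)
          rw [mem_product]
          exact ⟨mem_univ _, mem_filter.2 ⟨mem_univ _, hw⟩⟩
      refine (card_le_card this).trans ((card_insert_le _ _).trans ?_)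
      rw [add_comm]
      apply Nat.add_le_add_left
      refine card_image_le.trans ?_
      rw [card_product, card_row O e23.symm, card_univ]
      simp
    have h2 : Fintype.card {w : Fin (k + 1 + 1) ⊕ (Fin (k + 1 + 1) × G) // w ∉ Λ} =
        Fintype.card (Fin (k + 1 + 1) ⊕ (Fin (k + 1 + 1) × G)) - Λ.card := by
      rw [Fintype.card_subtype_compl, Fintype.card_coe]
    rw [h2, Fintype.card_sum, Fintype.card_prod, card_G O e12]
    simp only [Fintype.card_fin]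
    apply Nat.lt_sub_of_add_lt
    nlinarith
  · intro h
    exact e12 (Sum.inl_injective (Subtype.ext_iff.1 h))

end Pool.Agent.Helper19.A3
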