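import Mathlib
import Pool.Agent.Helper19.A3.Quot
import Pool.Agent.Helper19.V3.Noncol
import Pool.Agent.Helper19.V3.Collin

set_option autoImplicit false
set_option linter.unusedSectionVars false

/-!
# Planes not through the affine point; three affine points
-/

namespace Pool.Agent.Helper19.A3

open Finset Pool.Agent.V11100.VB Pool.Agent.Helper19.VS

variable {V : Type} [DecidableEq V] [Fintype V] {B : Finset (Finset V)} {q : ℕ}

theorem comp_out (H : LS B q) (hq : 4 ≤ q) {p1 p2 : V} (v1 : Apt B q p1) (v2 : Apt B q p2)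
    (h12 : p1 ≠ p2) {γ : Finset V} (Pγ : APla B q γ) (p2γ : p2 ∈ γ) (p1γ : p1 ∉ γ) :
    ∃ R ∈ qB B q p1, ∀ g ∈ B, g ⊆ γ → ∀ b, Dir B q p1 g b → b ∈ R := by
  classical
  have HQ := qB_LS H v1
  have hV := qB_veblen H hq v1 v2 h12
  have ne1 : ∀ y ∈ γ, p1 ≠ y := fun y hy e => p1γ (e ▸ hy)
  -- one point of `γ` on a block through `p1`
  have one : ∀ b : Ln B p1, ∀ y ∈ γ, ∀ y' ∈ γ, y ∈ b.1 → y' ∈ b.1 → y = y' := by
    intro b y hy y' hy' h h'
    by_contra hne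
    exact p1γ (Pγ.sub H hy hy' hne b.2.1 h h' b.2.2)
  -- the planes of `p1` and a block of `γ`
  have cut : ∀ g ∈ B, g ⊆ γ → ∀ S, APla B q S → p1 ∈ S → g ⊆ S → ∀ y ∈ γ, y ∈ S → y ∈ g := by
    intro g hg hgγ S P hp hgS y hy hyS
    obtain ⟨x, hx⟩ : g.Nonempty := by
      rw [← card_pos, H.size g hg]
      omega
    obtain ⟨x', hx', hxx⟩ := H.two_pts hg x
    have hne : S ≠ γ := fun e => p1γ (e ▸ hp)
    have := P.inter H Pγ hne (hgS hx) (hgγ hx) (hgS hx') (hgγ hx') hyS hy hxx.symm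
    rwa [H.bl_eq hxx.symm hg hx hx'] at this
  -- the base block
  obtain ⟨g0, g0B, g0γ, p2g0⟩ : ∃ g0 ∈ B, g0 ⊆ γ ∧ p2 ∉ g0 := by
    have hc : 1 < γ.card := by rw [Pγ.card]; nlinarith
    obtain ⟨x, hx, hxp⟩ := exists_mem_ne hc p2
    have : ∃ y ∈ γ, y ∉ bl B p2 x := by
      by_contra hcon
      push Not at hcon
      have := card_le_card (fun y hy => hcon y hy : γ ⊆ bl B p2 x)
      rw [Pγ.card, H.size _ (H.bB hxp.symm)] at this
      nlinarith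
    obtain ⟨y, hy, hyn⟩ := this
    have hxy : x ≠ y := fun e => hyn (e ▸ H.b2 hxp.symm)
    refine ⟨bl B x y, H.bB hxy, Pγ.cl x hx y hy hxy, fun hc => hyn ?_⟩
    rw [H.bl_eq hxp.symm (H.bB hxy) hc (H.b1 hxy)]
    exact H.b2 hxy
  have p1g : ∀ g, g ⊆ γ → p1 ∉ g := fun g hg h => p1γ (hg h)
  obtain ⟨β0, P0, p1β0, g0β0⟩ := v1.plane H g0B (p1g g0 g0γ)
  have s0Q : star B p1 β0 ∈ qB B q p1 := mem_qB.2 ⟨β0, P0, p1β0, rfl⟩
  have l0 : ray H h12 ∉ star B p1 β0 := by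
    intro h
    exact p2g0 (cut g0 g0B g0γ β0 P0 p1β0 g0β0 p2 p2γ (mem_star.1 h (H.b2 h12)))
  set W := pl (qB B q p1) (ray H h12) (star B p1 β0) with hW
  have Wcard : W.card = (q + 1 + 1) * (q + 1) + 1 := HQ.card_pl s0Q l0
  have Wcl : ∀ u ∈ W, ∀ v ∈ W, u ≠ v → ∀ g ∈ qB B q p1, u ∈ g → v ∈ g → g ⊆ W :=
    fun u hu v hv huv g hg h1 h2 => HQ.closed hV s0Q l0 hu hv hg h1 h2 huv
  have Wl0 : ray H h12 ∈ W := HQ.p_mem s0Q l0
  have Ws0 : star B p1 β0 ⊆ W := HQ.L_sub l0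
  -- closure along a block of `γ`
  have CL : ∀ h ∈ B, h ⊆ γ → ∀ u (hu : u ∈ h) v (hv : v ∈ h) (h1 : p1 ≠ u) (h2 : p1 ≠ v),
      u ≠ v → ray H h1 ∈ W → ray H h2 ∈ W → ∀ S, APla B q S → p1 ∈ S → h ⊆ S →
      star B p1 S ⊆ W := by
    intro h hB hγ u hu v hv h1 h2 huv hw1 hw2 S P hp hs
    refine Wcl _ hw1 _ hw2 ?_ _ (mem_qB.2 ⟨S, P, hp, rfl⟩) (ray_star H h1 P hp (hs hu))
      (ray_star H h2 P hp (hs hv))
    intro e
    apply huv
    refine one (ray H h1) u (hγ hu) v (hγ hv) (H.b2 h1) ?_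
    rw [e]
    exact H.b2 h2
  have CL' : ∀ h ∈ B, h ⊆ γ → ∀ u (hu : u ∈ h) v (hv : v ∈ h) (h1 : p1 ≠ u) (h2 : p1 ≠ v),
      u ≠ v → ray H h1 ∈ W → ray H h2 ∈ W → ∀ y (hy : y ∈ h) (h3 : p1 ≠ y),
      ray H h3 ∈ W := by
    intro h hB hγ u hu v hv h1 h2 huv hw1 hw2 y hy h3
    obtain ⟨S, P, hp, hs⟩ := v1.plane H hB (p1g h hγ)
    exact CL h hB hγ u hu v hv h1 h2 huv hw1 hw2 S P hp hs (ray_star H h3 P hp (hs hy))
  have W0 : ∀ z (hz : z ∈ g0) (h : p1 ≠ z), ray H h ∈ W := fun z hz h =>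
    Ws0 (ray_star H h P0 p1β0 (g0β0 hz))
  have W1 : ∀ y ∈ γ, ∀ (h : p1 ≠ y), ∀ h2 : p2 ≠ y, (∃ z ∈ g0, z ∈ bl B p2 y) →
      ray H h ∈ W := by
    rintro y hy h h2 ⟨z, hz, hzy⟩
    have hzp : p2 ≠ z := fun e => p2g0 (e ▸ hz)
    exact CL' _ (H.bB h2) (Pγ.cl p2 p2γ y hy h2) p2 (H.b1 h2) z hzy h12 (ne1 z (g0γ hz)) hzp
      Wl0 (W0 z hz _) y (H.b2 h2) h
  have W2 : ∀ y ∈ γ, ∀ (h : p1 ≠ y), ray H h ∈ W := by
    intro y hy h
    by_cases h2 : p2 = y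
    · subst h2; exact Wl0
    by_cases hz : ∃ z ∈ g0, z ∈ bl B p2 y
    · exact W1 y hy h h2 hz
    have hd : Disjoint (bl B p2 y) g0 := by
      rw [disjoint_left]
      intro z hz1 hz2
      exact hz ⟨z, hz2, hz1⟩
    obtain ⟨z, hz⟩ : g0.Nonempty := by
      rw [← card_pos, H.size g0 g0B]
      omega
    have hyz : y ≠ z := fun e => (disjoint_left.1 hd) (H.b2 h2) (e ▸ hz)
    obtain ⟨y', hy', hyy, hyz'⟩ := H.three_pts (H.bB hyz) y z
    have hγ' : bl B y z ⊆ γ := Pγ.cl y hy z (g0γ hz) hyz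
    have hne : bl B y z ≠ bl B p2 y := by
      intro e
      exact (disjoint_left.1 hd) (e ▸ H.b2 hyz) hz
    have h2' : p2 ≠ y' := by
      rintro rfl
      exact hne (H.un h2 (H.bB hyz) (H.bB h2) hy' (H.b1 hyz) (H.b1 h2) (H.b2 h2))
    have hne' : bl B p2 y' ≠ bl B p2 y := by
      intro e
      have e2 := H.un hyy (H.bB hyz) (H.bB h2) hy' (H.b1 hyz) (e ▸ H.b2 h2') (H.b2 h2)
      exact hne e2
    have hm : ∃ z ∈ g0, z ∈ bl B p2 y' := by
      by_contra hc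
      push Not at hc
      have hd' : Disjoint (bl B p2 y') g0 := by
        rw [disjoint_left]
        intro z hz1 hz2
        exact hc z hz2 hz1
      exact hne' (Pγ.par_un H g0B g0γ p2g0 (H.bB h2') (Pγ.cl p2 p2γ y' (hγ' hy') h2')
        (H.b1 h2') hd' (H.bB h2) (Pγ.cl p2 p2γ y hy h2) (H.b1 h2) hd)
    exact CL' _ (H.bB hyz) hγ' y' hy' z (H.b2 hyz) (ne1 y' (hγ' hy')) (ne1 z (g0γ hz)) hyz'
      (W1 y' (hγ' hy') _ h2' hm) (W0 z hz _) y (H.b1 hyz) h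
  -- the cone
  set C : Finset (Ln B p1) := univ.filter fun b => ∃ y ∈ γ, y ∈ b.1 with hC
  have memC : ∀ b : Ln B p1, b ∈ C ↔ ∃ y ∈ γ, y ∈ b.1 := by
    intro b
    rw [hC, mem_filter]
    simp
  have Ccard : C.card = (q + 1) * (q + 1) := by
    rw [← Pγ.card]
    symm
    refine card_bij (fun y hy => ray H (ne1 y hy)) ?_ ?_ ?_
    · intro y hy
      exact (memC _).2 ⟨y, hy, H.b2 (ne1 y hy)⟩
    · intro y hy y' hy' e
      refine one (ray H (ne1 y hy)) y hy y' hy' (H.b2 (ne1 y hy)) ?_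
      rw [e]
      exact H.b2 (ne1 y' hy')
    · intro b hb
      obtain ⟨y, hy, hyb⟩ := (memC b).1 hb
      exact ⟨y, hy, ray_eq H (ne1 y hy) hyb⟩
  have CW : C ⊆ W := by
    intro b hb
    obtain ⟨y, hy, hyb⟩ := (memC b).1 hb
    rw [← ray_eq H (ne1 y hy) hyb]
    exact W2 y hy _
  have Rcard : (W \ C).card = q + 2 := by
    rw [card_sdiff_of_subset CW, Wcard, Ccard]
    have : (q + 1 + 1) * (q + 1) + 1 = (q + 1) * (q + 1) + (q + 2) := by ring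
    omega
  have dirR : ∀ g ∈ B, g ⊆ γ → ∀ b, Dir B q p1 g b → b ∈ W \ C := by
    intro g hg hgγ b hb
    rcases hb with hb | ⟨h1, h2, S, P, h3, h4⟩
    · exact absurd (hb ▸ b.2.2) (p1g g hgγ)
    · obtain ⟨x, hx⟩ : g.Nonempty := by
        rw [← card_pos, H.size g hg]
        omega
      obtain ⟨x', hx', hxx⟩ := H.two_pts hg x
      have hs := CL g hg hgγ x hx x' hx' (ne1 x (hgγ hx)) (ne1 x' (hgγ hx')) hxx.symm
        (W2 x (hgγ hx) _) (W2 x' (hgγ hx') _) S P (h4 b.2.2) h3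
      rw [mem_sdiff]
      refine ⟨hs (mem_star.2 h4), fun hc => ?_⟩
      obtain ⟨y, hy, hyb⟩ := (memC b).1 hc
      exact (disjoint_left.1 h2) (cut g hg hgγ S P (h4 b.2.2) h3 y hy (h4 hyb)) hyb
  refine ⟨W \ C, ?_, dirR⟩
  -- the complement is a block
  have h1R : 1 < (W \ C).card := by rw [Rcard]; omega
  obtain ⟨e, he, f, hf, hef⟩ := one_lt_card.1 h1R
  have lQ := HQ.bB hef
  have heW := (mem_sdiff.1 he).1
  have hfW := (mem_sdiff.1 hf).1
  have lW : bl (qB B q p1) e f ⊆ W := Wcl e heW f hfW hef _ lQ (HQ.b1 hef) (HQ.b2 hef)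
  have lC : bl (qB B q p1) e f ⊆ W \ C := by
    intro b hb
    rw [mem_sdiff]
    refine ⟨lW hb, fun hbC => ?_⟩
    obtain ⟨y, hy, hyb⟩ := (memC b).1 hbC
    obtain ⟨g1, g1B, g1γ, yg1, d1⟩ := star_surj H v1 Pγ Rcard dirR hy he
    obtain ⟨g2, g2B, g2γ, yg2, d2⟩ := star_surj H v1 Pγ Rcard dirR hy hf
    have d1' := d1
    rcases d1 with d1 | ⟨a1, a2, S1, P1, a3, a4⟩
    · exact absurd (d1 ▸ e.2.2) (p1g g1 g1γ)
    rcases d2 with d2 | ⟨b1, b2, S2, P2, b3, b4⟩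
    · exact absurd (d2 ▸ f.2.2) (p1g g2 g2γ)
    have hbe : b ≠ e := by
      rintro rfl
      exact (mem_sdiff.1 he).2 hbC
    have hbf : b ≠ f := by
      rintro rfl
      exact (mem_sdiff.1 hf).2 hbC
    have hr := ray_eq H (ne1 y hy) hyb
    have m1 : b ∈ star B p1 S1 := by
      rw [← hr]
      exact ray_star H _ P1 (a4 e.2.2) (a3 yg1)
    have m2 : b ∈ star B p1 S2 := by
      rw [← hr]
      exact ray_star H _ P2 (b4 f.2.2) (b3 yg2)
    have q1 : star B p1 S1 ∈ qB B q p1 := mem_qB.2 ⟨S1, P1, a4 e.2.2, rfl⟩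
    have q2 : star B p1 S2 ∈ qB B q p1 := mem_qB.2 ⟨S2, P2, b4 f.2.2, rfl⟩
    have E1 := HQ.un hbe lQ q1 hb (HQ.b1 hef) m1 (mem_star.2 a4)
    have E2 := HQ.un hbf lQ q2 hb (HQ.b2 hef) m2 (mem_star.2 b4)
    have E3 : star B p1 S1 = star B p1 S2 := E1.symm.trans E2
    have E4 : S1 = S2 := star_inj H P1 P2 hbe m1 (mem_star.2 a4) m2
      (by rw [← E3]; exact mem_star.2 a4)
    subst E4
    have g21 : g2 ⊆ g1 := fun z hz => cut g1 g1B g1γ S1 P1 (a4 e.2.2) a3 z (g2γ hz) (b3 hz)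
    have g12 : g2 = g1 := eq_of_subset_of_card_le g21 (by rw [H.size g1 g1B, H.size g2 g2B])
    subst g12
    exact hef (dir_un H g2B d1' (Or.inr ⟨b1, b2, S1, P2, b3, b4⟩))
  have : bl (qB B q p1) e f = W \ C :=
    eq_of_subset_of_card_le lC (by rw [Rcard, HQ.size _ lQ])
  rw [← this]
  exact lQ

/-- a point all of whose pairs of blocks are in projective planes is a Veblen point -/
theorem comp_veblen {W : Type} [DecidableEq W] {C : Finset (Finset W)} {k : ℕ} (HC : LS C k)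
    {w : W} (h : ∀ l ∈ C, ∀ m ∈ C, l ≠ m → w ∈ l → w ∈ m → ∃ S, V3.Pla C k S ∧ l ⊆ S ∧ m ⊆ S) :
    Veblen C w := by
  intro l hl m hm hlm pl pm a al b bl' c cm d dm ap bp cp dp g hg h' hh ag cg bh dh
  obtain ⟨S, P, h1, h2⟩ := h l hl m hm hlm pl pm
  have hac : a ≠ c := by
    rintro rfl
    exact ap (HC.pt hl hm hlm al cm pl pm)
  have hbd : b ≠ d := by
    rintro rfl
    exact bp (HC.pt hl hm hlm bl' dm pl pm)
  have e1 := P.cl a (h1 al) c (h2 cm) hac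
  have e2 := P.cl b (h1 bl') d (h2 dm) hbd
  rw [HC.bl_eq hac hg ag cg] at e1
  rw [HC.bl_eq hbd hh bh dh] at e2
  obtain ⟨w', h3, h4⟩ := P.meet HC hg hh e1 e2
  exact ⟨w', h3, h4⟩

theorem veblen_inl (H : LS B q) {p p' : V} (v : Apt B q p) (v' : Apt B q p')
    (h : ∀ A, APla B q A → p' ∈ A → ∃ R ∈ qB B q p, ∀ g ∈ B, g ⊆ A → ∀ b, Dir B q p g b → b ∈ R) :
    Veblen (cB B q p) (.inl p') := by
  refine comp_veblen (cB_LS H v) ?_
  intro l hl m hm hlm hpl hpm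
  rcases mem_cB.1 hl with ⟨l', hl', b, hb, rfl⟩ | ⟨t, ht, rfl⟩
  swap
  · simp at hpl
  rcases mem_cB.1 hm with ⟨m', hm', c, hc, rfl⟩ | ⟨t, ht, rfl⟩
  swap
  · simp at hpm
  rw [inl_mem_disjSum] at hpl hpm
  have hne : l' ≠ m' := by
    rintro rfl
    exact hlm (by rw [dir_un H hl' hb hc])
  obtain ⟨S, P, h1, h2⟩ := v' l' hl' m' hm' hne hpl hpm
  obtain ⟨R, hR, h3⟩ := h S P (h1 hpl)
  refine ⟨_, comp_pla H v P hR h3, disjSum_mono h1 ?_, disjSum_mono h2 ?_⟩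
  · simpa using h3 l' hl' h1 b hb
  · simpa using h3 m' hm' h2 c hc

theorem veblen_self (H : LS B q) {p : V} (v : Apt B q p) : Veblen (cB B q p) (.inl p) :=
  veblen_inl H v v fun A P hA =>
    ⟨star B p A, mem_qB.2 ⟨A, P, hA, rfl⟩, fun g hg hgA b hb => comp_in H P hA g hg hgA b hb⟩

theorem veblen_other (H : LS B q) (hq : 4 ≤ q) {p p' : V} (v : Apt B q p) (v' : Apt B q p')
    (h : p ≠ p') : Veblen (cB B q p) (.inl p') := by
  refine veblen_inl H v v' fun A P hA => ?_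
  by_cases hp : p ∈ A
  · exact ⟨star B p A, mem_qB.2 ⟨A, P, hp, rfl⟩, fun g hg hgA b hb => comp_in H P hp g hg hgA b hb⟩
  · exact comp_out H hq v v' h P hA hp

theorem card_comp (H : LS B q) (p : V) (hn : (q + 1) * (q + 1) < Fintype.card V) :
    (q + 1 + 1) * (q + 1) + 1 < Fintype.card (V ⊕ Ln B p) := by
  have h1 := card_thr H p
  have h2 : Fintype.card (Ln B p) = (thr B p).card := by
    rw [← card_univ]
    refine card_bij (fun b _ => b.1) ?_ ?_ ?_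
    · intro b _
      exact mem_thr.2 b.2
    · intro b _ c _ e
      exact Subtype.ext e
    · intro b hb
      exact ⟨⟨b, mem_thr.1 hb⟩, mem_univ _, rfl⟩
  rw [Fintype.card_sum, h2]
  have h3 : q + 2 ≤ (thr B p).card := by
    by_contra hc
    push Not at hc
    have : (thr B p).card * q ≤ (q + 1) * q := Nat.mul_le_mul_right _ (by omega)
    nlinarith
  nlinarith

/-- three affine points -/
theorem threeA (H : LS B q) {p1 p2 p3 : V} (v1 : Apt B q p1) (v2 : Apt B q p2)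
    (v3 : Apt B q p3) (h12 : p1 ≠ p2) (h13 : p1 ≠ p3) (h23 : p2 ≠ p3)
    (hn : (q + 1) * (q + 1) < Fintype.card V) : IsPrimePow (q + 1) := by
  have h2 := H.hq
  by_cases hq : 4 ≤ q
  · refine V3.three (cB_LS H v1) (veblen_self H v1) (veblen_other H hq v1 v2 h12)
      (veblen_other H hq v1 v3 h13) ?_ ?_ ?_ (card_comp H p1 hn)
    · intro e; exact h12 (Sum.inl_injective e)
    · intro e; exact h13 (Sum.inl_injective e)
    · intro e; exact h23 (Sum.inl_injective e)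
  · have : q = 2 ∨ q = 3 := by omega
    rcases this with rfl | rfl
    · exact (Nat.prime_three).isPrimePow
    · have : (3 + 1 : ℕ) = 2 ^ 2 := by norm_num
      rw [this]
      exact (Nat.prime_two).isPrimePow.pow two_ne_zero

end Pool.Agent.Helper19.A3
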